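import Pool.Agent.Helper39.HL.Strong

/-!
# Strong subtrees with a common level set from boxes on levels
-/

set_option autoImplicit false

open Cardinal Set Helper2.HB Pool.Agent.Helper58.HL

namespace Pool.Agent.Helper39.HL

/-- `T'` is a strong subtree of `T` witnessed by `A`, except that `T'` need not be perfect:
`T' ⊆ T` is closed under initial segments, of size `#K`, with levels of size less than `#K`, all
its maximal branches have cofinality `#K`, every node of `T'` has exactly one immediate successor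
in `T'` if its level is not in `A`, and keeps all its immediate successors of `T` if its level is
in `A`. -/
structure IsStrongSubtree {K : Type} [LinearOrder K] (T : Set (Node K)) (A : Set K)
    (T' : Set (Node K)) : Prop where
  subset : T' ⊆ T
  down : ∀ t ∈ T', ∀ s, s ≤ t → s ∈ T'
  card : #T' = #K
  level : ∀ ζ : K, #{t // t ∈ T' ∧ t.len = ζ} < #K
  branch : ∀ C : Set T', IsMaxChain (· ≤ ·) C → ∀ D ⊆ C, (∀ c ∈ C, ∃ d ∈ D, c ≤ d) → #K ≤ #D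
  one : ∀ t ∈ T', t.len ∉ A → ∃! u, u ∈ T' ∧ t ≤ u ∧ t.len ⋖ u.len
  all : ∀ t ∈ T', t.len ∈ A → ∀ u ∈ T, t ≤ u → t.len ⋖ u.len → u ∈ T'

/-- the node `t` has two different immediate successors in `T` -/
def Splits {K : Type} [LinearOrder K] (T : Set (Node K)) (t : Node K) : Prop :=
  ∃ a ∈ T, ∃ b ∈ T, t ≤ a ∧ t ≤ b ∧ a ≠ b ∧ t.len ⋖ a.len ∧ a.len = b.len

variable {κ : Cardinal.{0}}

/-- one tree -/
theorem Setup.strong (hκ : κ.IsRegular) {T : Set (Node κ.ord.ToType)} (hT : IsRegularTree T)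
    {r : Node κ.ord.ToType} {z nx : κ.ord.ToType → κ.ord.ToType}
    {X : Node κ.ord.ToType → Node κ.ord.ToType} {H : Set κ.ord.ToType}
    (hS : Setup T r z nx X H) :
    IsStrongSubtree T (z '' H) (Sub T r X H) ∧
      ((∀ t ∈ T, t.len ∈ z '' H → Splits T t) → IsRegularTree (Sub T r X H)) := by
  classical
  have : NoMaxOrder κ.ord.ToType := Cardinal.noMaxOrder hκ.aleph0_le
  have hsub : Sub T r X H ⊆ T := fun _ h => h.1
  have hbr : ∀ C : Set (Sub T r X H), IsMaxChain (· ≤ ·) C → ∀ D ⊆ C,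
      (∀ c ∈ C, ∃ d ∈ D, c ≤ d) → #κ.ord.ToType ≤ #D := by
    intro C hC D _ hcof
    by_contra hcon
    rw [not_le, Cardinal.mk_ord_toType] at hcon
    obtain ⟨l, hl⟩ := exists_bound hκ hcon (fun d : D => ((d.1 : Sub T r X H) : Node _).len)
    obtain ⟨c, hc, h1⟩ := hS.unbounded hC l
    obtain ⟨d, hd, h2⟩ := hcof c hc
    have h3 : (c : Node κ.ord.ToType) ≤ (d : Node κ.ord.ToType) := h2
    exact absurd h1 (not_lt.2 (h3.1.trans (hl ⟨d, hd⟩)))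
  have hcard : #(Sub T r X H) = #κ.ord.ToType := by
    refine le_antisymm ((Cardinal.mk_le_mk_of_subset hsub).trans hT.card.le) ?_
    obtain ⟨C, hC, -⟩ := (IsChain.empty (r := (· ≤ ·)) (α := Sub T r X H)).exists_maxChain
    exact (hbr C hC C subset_rfl fun c hc => ⟨c, hc, le_rfl⟩).trans (Cardinal.mk_set_le C)
  have hlev : ∀ ζ, #{t // t ∈ Sub T r X H ∧ t.len = ζ} < #κ.ord.ToType := by
    intro ζ
    refine lt_of_le_of_lt ?_ (hT.level ζ)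
    exact Cardinal.mk_subtype_mono fun t ht => ⟨hsub ht.1, ht.2⟩
  have hall : ∀ t ∈ Sub T r X H, t.len ∈ z '' H → ∀ u ∈ T, t ≤ u → t.len ⋖ u.len →
      u ∈ Sub T r X H := fun t ht hA u hu h1 h2 => hS.all_succ ht hA hu h1 h2
  refine ⟨⟨hsub, hS.sub_down, hcard, hlev, hbr, ?_, hall⟩, fun hsp => ?_⟩
  · intro t ht hA
    obtain ⟨u, hu, h1, h2⟩ := hS.exists_succ ht
    exact ⟨u, ⟨hu, h1, h2⟩, fun v hv => hS.unique_succ ht hA hv.1 hu hv.2.1 h1 hv.2.2 h2⟩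
  · refine ⟨hS.sub_down, hcard, hlev, ?_, hbr⟩
    intro t ht
    obtain ⟨ζ, hζ, h1⟩ := hS.cofinal t.len
    obtain ⟨s, hs, h2, h3⟩ := hS.sub_ext ht h1.le
    subst h3
    obtain ⟨a, ha, b, hb, h4, h5, h6, h7, h8⟩ := hsp s (hsub hs) hζ
    exact ⟨s, hs, h2, a, hall s hs hζ a ha h4 h7, b, hall s hs hζ b hb h5 (h8 ▸ h7), h4, h5, h6,
      h7, h8⟩

/-- **Strong subtrees from boxes on levels.** -/
theorem strong_of_boxes (hκ : κ.IsRegular) {T₀ T₁ : Set (Node κ.ord.ToType)}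
    (h₀ : IsRegularTree T₀) (h₁ : IsRegularTree T₁) (F : Filter κ.ord.ToType) [F.NeBot]
    (hFt : ∀ a, Ioi a ∈ F) {ι : Type} (c : T₀ → T₁ → ι) (s : T₀) (t : T₁) (i : ι)
    (hbox : ∀ (M J : Type), #M < κ → #J < κ →
      ∀ (p : M → T₀) (q : J → T₁), (∀ m, s ≤ p m) → (∀ j, t ≤ q j) →
        {ζ | ∃ (x : M → T₀) (y : J → T₁),
          (∀ m, p m ≤ x m ∧ (x m : Node κ.ord.ToType).len = ζ) ∧
          (∀ j, q j ≤ y j ∧ (y j : Node κ.ord.ToType).len = ζ) ∧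
          ∀ m j, c (x m) (y j) = i} ∈ F) (S : Set κ.ord.ToType) (hSF : S ∈ F) :
    ∃ A ⊆ S, (∀ a, ∃ ζ ∈ A, a < ζ) ∧ ∃ T₀' T₁' : Set (Node κ.ord.ToType),
      (s : Node κ.ord.ToType) ∈ T₀' ∧ (t : Node κ.ord.ToType) ∈ T₁' ∧
      IsStrongSubtree T₀ A T₀' ∧ IsStrongSubtree T₁ A T₁' ∧
      (∀ ζ, ∃ x ∈ T₀', x.len = ζ) ∧ (∀ ζ, ∃ y ∈ T₁', y.len = ζ) ∧
      ((∀ u ∈ T₀, u.len ∈ A → Splits T₀ u) → IsRegularTree T₀') ∧
      ((∀ u ∈ T₁, u.len ∈ A → Splits T₁ u) → IsRegularTree T₁') ∧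
      ∀ (x : T₀) (y : T₁), (x : Node κ.ord.ToType) ∈ T₀' → (y : Node κ.ord.ToType) ∈ T₁' →
        (x : Node κ.ord.ToType).len ∈ A →
        (x : Node κ.ord.ToType).len = (y : Node κ.ord.ToType).len → c x y = i := by
  classical
  have : NoMaxOrder κ.ord.ToType := Cardinal.noMaxOrder hκ.aleph0_le
  set η₀ := max (s : Node κ.ord.ToType).len (t : Node κ.ord.ToType).len with hη₀
  obtain ⟨r₀, hr₀, hl₀⟩ := exists_level h₀ s η₀ (le_max_left _ _)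
  obtain ⟨r₁, hr₁, hl₁⟩ := exists_level h₁ t η₀ (le_max_right _ _)
  have hlev : ∀ η, ∃ ζ, η < ζ ∧ ζ ∈ S ∧
      ∃ (x : {u : T₀ // r₀ ≤ u ∧ (u : Node κ.ord.ToType).len = η} → T₀)
        (y : {u : T₁ // r₁ ≤ u ∧ (u : Node κ.ord.ToType).len = η} → T₁),
        (∀ m, m.1 ≤ x m ∧ (x m : Node κ.ord.ToType).len = ζ) ∧
        (∀ j, j.1 ≤ y j ∧ (y j : Node κ.ord.ToType).len = ζ) ∧
        ∀ m j, c (x m) (y j) = i := by
    intro η
    have hM : #{u : T₀ // r₀ ≤ u ∧ (u : Node κ.ord.ToType).len = η} < κ := by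
      have h1 := h₀.level η
      rw [Cardinal.mk_ord_toType] at h1
      refine lt_of_le_of_lt ?_ h1
      refine Cardinal.mk_le_of_injective (f := fun u => (⟨u.1.1, u.1.2, u.2.2⟩ :
        {t // t ∈ T₀ ∧ t.len = η})) ?_
      intro u v huv
      have h2 : (u.1 : Node κ.ord.ToType) = (v.1 : Node κ.ord.ToType) := by
        simpa using huv
      exact Subtype.ext (Subtype.ext h2)
    have hJ : #{u : T₁ // r₁ ≤ u ∧ (u : Node κ.ord.ToType).len = η} < κ := by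
      have h1 := h₁.level η
      rw [Cardinal.mk_ord_toType] at h1
      refine lt_of_le_of_lt ?_ h1
      refine Cardinal.mk_le_of_injective (f := fun u => (⟨u.1.1, u.1.2, u.2.2⟩ :
        {t // t ∈ T₁ ∧ t.len = η})) ?_
      intro u v huv
      have h2 : (u.1 : Node κ.ord.ToType) = (v.1 : Node κ.ord.ToType) := by
        simpa using huv
      exact Subtype.ext (Subtype.ext h2)
    have h1 := hbox _ _ hM hJ (fun u => u.1) (fun u => u.1) (fun u => hr₀.trans u.2.1)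
      (fun u => hr₁.trans u.2.1)
    obtain ⟨ζ, h2, h3, h4⟩ := Filter.nonempty_of_mem (Filter.inter_mem h1
      (Filter.inter_mem (hFt η) hSF))
    exact ⟨ζ, h3, h4, h2⟩
  choose z hz hzS x y hx hy hxy using hlev
  have hcov : ∀ η, ∃ b, z η ⋖ b := fun η => exists_covBy_of_wellFoundedLT (not_isMax _)
  choose nx hnx using hcov
  obtain ⟨H, hH⟩ := exists_greedy nx η₀
  let X₀ : Node κ.ord.ToType → Node κ.ord.ToType := fun u =>
    if h : ∃ hu : u ∈ T₀, r₀ ≤ (⟨u, hu⟩ : T₀) then (x u.len ⟨⟨u, h.1⟩, h.2, rfl⟩ : T₀) else u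
  let X₁ : Node κ.ord.ToType → Node κ.ord.ToType := fun u =>
    if h : ∃ hu : u ∈ T₁, r₁ ≤ (⟨u, hu⟩ : T₁) then (y u.len ⟨⟨u, h.1⟩, h.2, rfl⟩ : T₁) else u
  have hX₀ : ∀ (u : Node κ.ord.ToType) (hu : u ∈ T₀) (hr : r₀ ≤ (⟨u, hu⟩ : T₀)),
      X₀ u = (x u.len ⟨⟨u, hu⟩, hr, rfl⟩ : T₀) := fun u hu hr => dif_pos ⟨hu, hr⟩
  have hX₁ : ∀ (u : Node κ.ord.ToType) (hu : u ∈ T₁) (hr : r₁ ≤ (⟨u, hu⟩ : T₁)),
      X₁ u = (y u.len ⟨⟨u, hu⟩, hr, rfl⟩ : T₁) := fun u hu hr => dif_pos ⟨hu, hr⟩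
  have hS₀ : Setup T₀ (r₀ : Node κ.ord.ToType) z nx X₀ H := by
    refine ⟨h₀.down, r₀.2, fun C hC hch l hl => h₀.ub hK_toType hC hch l hl, hz, hnx, ?_, ?_, ?_,
      fun η => by rw [hl₀]; exact hH η⟩
    · intro u hu hr; rw [hX₀ u hu hr]; exact Subtype.property _
    · intro u hu hr; rw [hX₀ u hu hr]; exact (hx _ _).2
    · intro u hu hr; rw [hX₀ u hu hr]; exact (hx u.len ⟨⟨u, hu⟩, hr, rfl⟩).1
  have hS₁ : Setup T₁ (r₁ : Node κ.ord.ToType) z nx X₁ H := by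
    refine ⟨h₁.down, r₁.2, fun C hC hch l hl => h₁.ub hK_toType hC hch l hl, hz, hnx, ?_, ?_, ?_,
      fun η => by rw [hl₁]; exact hH η⟩
    · intro u hu hr; rw [hX₁ u hu hr]; exact Subtype.property _
    · intro u hu hr; rw [hX₁ u hu hr]; exact (hy _ _).2
    · intro u hu hr; rw [hX₁ u hu hr]; exact (hy u.len ⟨⟨u, hu⟩, hr, rfl⟩).1
  refine ⟨z '' H, ?_, hS₀.cofinal, Sub T₀ r₀ X₀ H, Sub T₁ r₁ X₁ H,
    hS₀.sub_down _ hS₀.r_mem _ hr₀, hS₁.sub_down _ hS₁.r_mem _ hr₁,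
    (hS₀.strong hκ h₀).1, (hS₁.strong hκ h₁).1, hS₀.exists_len, hS₁.exists_len,
    (hS₀.strong hκ h₀).2, (hS₁.strong hκ h₁).2, ?_⟩
  · rintro _ ⟨η, -, rfl⟩
    exact hzS η
  · intro a b ha hb hA hab
    obtain ⟨η, hη, hlen⟩ := hA
    obtain ⟨h3, h4, h5⟩ := hS₀.eq_X ha hη hlen.symm
    obtain ⟨h6, h7, h8⟩ := hS₁.eq_X hb hη (hlen.trans hab).symm
    rw [hX₀ _ h3.1 h4] at h5
    rw [hX₁ _ h6.1 h7] at h8
    have e1 : a = x η ⟨⟨(a : Node κ.ord.ToType).restr η, h3.1⟩, h4, rfl⟩ := Subtype.ext h5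
    have e2 : b = y η ⟨⟨(b : Node κ.ord.ToType).restr η, h6.1⟩, h7, rfl⟩ := Subtype.ext h8
    rw [e1, e2]
    exact hxy η _ _

end Pool.Agent.Helper39.HL
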