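import Pool.Agent.Helper39.HL.Final

/-!
# Strong subtrees of finitely many trees with a common level set from boxes on levels
-/

set_option autoImplicit false

open Cardinal Set Helper2.HB Pool.Agent.Helper58.HL

namespace Pool.Agent.Helper39.HL

variable {κ : Cardinal.{0}}

/-- **Strong subtrees from boxes on levels**, finitely many trees. -/
theorem strong_of_boxes_fin (hκ : κ.IsRegular) {d : ℕ} {T : Fin d → Set (Node κ.ord.ToType)}
    (hT : ∀ l, IsRegularTree (T l)) (F : Filter κ.ord.ToType) [F.NeBot]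
    (hFt : ∀ a, Ioi a ∈ F) {ι : Type} (c : ((l : Fin d) → T l) → ι) (s : (l : Fin d) → T l)
    (i : ι)
    (hbox : ∀ J : Fin d → Type, (∀ l, #(J l) < κ) →
      ∀ p : (l : Fin d) → J l → T l, (∀ l j, s l ≤ p l j) →
        {ζ | ∃ x : (l : Fin d) → J l → T l,
          (∀ l j, p l j ≤ x l j ∧ (x l j : Node κ.ord.ToType).len = ζ) ∧
          ∀ f : (l : Fin d) → J l, c (fun l => x l (f l)) = i} ∈ F)
    (S : Set κ.ord.ToType) (hSF : S ∈ F) :
    ∃ A ⊆ S, (∀ a, ∃ ζ ∈ A, a < ζ) ∧ ∃ T' : Fin d → Set (Node κ.ord.ToType),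
      (∀ l, (s l : Node κ.ord.ToType) ∈ T' l ∧ IsStrongSubtree (T l) A (T' l) ∧
        (∀ ζ, ∃ x ∈ T' l, x.len = ζ) ∧
        ((∀ u ∈ T l, u.len ∈ A → Splits (T l) u) → IsRegularTree (T' l))) ∧
      ∀ (ζ : κ.ord.ToType), ζ ∈ A → ∀ v : (l : Fin d) → T l,
        (∀ l, (v l : Node κ.ord.ToType) ∈ T' l ∧ (v l : Node κ.ord.ToType).len = ζ) →
          c v = i := by
  classical
  have : NoMaxOrder κ.ord.ToType := Cardinal.noMaxOrder hκ.aleph0_le
  have hfin : #(Fin d) < κ := lt_of_lt_of_le (Cardinal.lt_aleph0_of_finite _) hκ.aleph0_le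
  obtain ⟨η₀, hη₀⟩ := exists_bound hκ hfin (fun l => (s l : Node κ.ord.ToType).len)
  choose r hr hrl using fun l => exists_level (hT l) (s l) η₀ (hη₀ l)
  have hlev : ∀ η, ∃ ζ, η < ζ ∧ ζ ∈ S ∧
      ∃ x : (l : Fin d) → {u : T l // r l ≤ u ∧ (u : Node κ.ord.ToType).len = η} → T l,
        (∀ l j, j.1 ≤ x l j ∧ (x l j : Node κ.ord.ToType).len = ζ) ∧
        ∀ f : (l : Fin d) → {u : T l // r l ≤ u ∧ (u : Node κ.ord.ToType).len = η},
          c (fun l => x l (f l)) = i := by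
    intro η
    have hJ : ∀ l, #{u : T l // r l ≤ u ∧ (u : Node κ.ord.ToType).len = η} < κ := by
      intro l
      have h1 := (hT l).level η
      rw [Cardinal.mk_ord_toType] at h1
      refine lt_of_le_of_lt ?_ h1
      refine Cardinal.mk_le_of_injective (f := fun u => (⟨u.1.1, u.1.2, u.2.2⟩ :
        {t // t ∈ T l ∧ t.len = η})) ?_
      intro u v huv
      have h2 : (u.1 : Node κ.ord.ToType) = (v.1 : Node κ.ord.ToType) := by
        simpa using huv
      exact Subtype.ext (Subtype.ext h2)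
    have h1 := hbox _ hJ (fun l u => u.1) (fun l u => (hr l).trans u.2.1)
    obtain ⟨ζ, h2, h3, h4⟩ := Filter.nonempty_of_mem (Filter.inter_mem h1
      (Filter.inter_mem (hFt η) hSF))
    exact ⟨ζ, h3, h4, h2⟩
  choose z hz hzS x hx hxi using hlev
  have hcov : ∀ η, ∃ b, z η ⋖ b := fun η => exists_covBy_of_wellFoundedLT (not_isMax _)
  choose nx hnx using hcov
  obtain ⟨H, hH⟩ := exists_greedy nx η₀
  let X : Fin d → Node κ.ord.ToType → Node κ.ord.ToType := fun l u =>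
    if h : ∃ hu : u ∈ T l, r l ≤ (⟨u, hu⟩ : T l) then
      (x u.len l ⟨⟨u, h.1⟩, h.2, rfl⟩ : T l) else u
  have hX : ∀ (l : Fin d) (u : Node κ.ord.ToType) (hu : u ∈ T l) (hr : r l ≤ (⟨u, hu⟩ : T l)),
      X l u = (x u.len l ⟨⟨u, hu⟩, hr, rfl⟩ : T l) := fun l u hu hr => dif_pos ⟨hu, hr⟩
  have hS : ∀ l, Setup (T l) (r l : Node κ.ord.ToType) z nx (X l) H := by
    intro l
    refine ⟨(hT l).down, (r l).2, fun C hC hch m hm => (hT l).ub hK_toType hC hch m hm, hz, hnx,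
      ?_, ?_, ?_, fun η => by rw [hrl l]; exact hH η⟩
    · intro u hu hr; rw [hX l u hu hr]; exact Subtype.property _
    · intro u hu hr; rw [hX l u hu hr]; exact (hx _ l _).2
    · intro u hu hr; rw [hX l u hu hr]; exact (hx u.len l ⟨⟨u, hu⟩, hr, rfl⟩).1
  refine ⟨z '' H, ?_, ?_, fun l => Sub (T l) (r l) (X l) H, fun l =>
    ⟨(hS l).sub_down _ (hS l).r_mem _ (hr l), ((hS l).strong hκ (hT l)).1, (hS l).exists_len,
      ((hS l).strong hκ (hT l)).2⟩, ?_⟩
  · rintro _ ⟨η, -, rfl⟩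
    exact hzS η
  · intro a
    obtain ⟨b, hb⟩ := exists_gt (max a η₀)
    have hex : ∃ η ∈ H, η ≤ b ∧ b < nx η := by
      by_contra hcon
      push Not at hcon
      have h1 : b ∈ H := (hH b).2 ⟨((le_max_right _ _).trans_lt hb).le,
        fun η' h2 h3 => hcon η' h2 h3.le⟩
      have h2 := hcon b h1 le_rfl
      exact absurd ((hz b).trans (hnx b).lt) (not_lt.2 h2)
    obtain ⟨η, hη, h1, h2⟩ := hex
    exact ⟨z η, ⟨η, hη, rfl⟩, ((le_max_left _ _).trans_lt hb).trans_le ((hnx η).le_of_lt h2)⟩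
  · rintro ζ ⟨η, hη, rfl⟩ v hv
    have hrep : ∀ l, ∃ j : {u : T l // r l ≤ u ∧ (u : Node κ.ord.ToType).len = η},
        v l = x η l j := by
      intro l
      obtain ⟨h3, h4, h5⟩ := (hS l).eq_X (hv l).1 hη (hv l).2
      rw [hX l _ h3.1 h4] at h5
      exact ⟨⟨⟨(v l : Node κ.ord.ToType).restr η, h3.1⟩, h4, rfl⟩, Subtype.ext h5⟩
    choose j hj using hrep
    have : v = fun l => x η l (j l) := funext hj
    rw [this]
    exact hxi η j

end Pool.Agent.Helper39.HL
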