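import Pool.Agent.Helper39.HL.Levels

/-!
# Boxes on levels of finitely many regular trees
-/

set_option autoImplicit false

open Cardinal Set Helper2.HB Pool.Agent.Helper58.HL

namespace Pool.Agent.Helper39.HL

variable {κ : Cardinal.{0}}

/-- Boxes for colorings of `d`-tuples of nodes of the full tree. -/
def BoxProp (κ : Cardinal.{0}) (d : ℕ) : Prop :=
  ∀ (ι : Type), #ι < κ → ∀ (c : (Fin d → Node κ.ord.ToType) → ι)
    (a : Fin d → Node κ.ord.ToType),
    ∃ s : Fin d → Node κ.ord.ToType, (∀ l, a l ≤ s l) ∧ ∃ i : ι,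
      ∀ J : Fin d → Type, (∀ l, #(J l) < κ) →
        ∀ p : (l : Fin d) → J l → Node κ.ord.ToType, (∀ l j, s l ≤ p l j) →
          ∃ x : (l : Fin d) → J l → Node κ.ord.ToType, (∀ l j, p l j ≤ x l j) ∧
            ∀ f : (l : Fin d) → J l, c (fun l => x l (f l)) = i

theorem card_sigma_lt (hκ : κ.IsRegular) {d : ℕ} {J : Fin d → Type} (hJ : ∀ l, #(J l) < κ) :
    #(Σ l, J l) < κ := by
  rw [Cardinal.mk_sigma]
  refine Cardinal.sum_lt_of_isRegular hκ ?_ hJ
  exact lt_of_lt_of_le (Cardinal.lt_aleph0_of_finite _) hκ.aleph0_le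

theorem card_pi_lt (hκ : κ.IsRegular) {d : ℕ} {J : Fin d → Type} (hJ : ∀ l, #(J l) < κ) :
    #((l : Fin d) → J l) < κ := by
  have h1 : #((l : Fin d) → J l) ≤ #(Fin d → Σ l, J l) := by
    refine Cardinal.mk_le_of_injective
      (f := fun (f : (l : Fin d) → J l) => fun l => (⟨l, f l⟩ : Σ l, J l)) ?_
    intro f g hfg
    funext l
    have h2 := congrFun hfg l
    simpa using h2
  refine lt_of_le_of_lt h1 ?_
  have h2 := card_sigma_lt hκ hJ
  have h3 : #(Fin d → Σ l, J l) = #(Σ l, J l) ^ d := by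
    simp
  rw [h3]
  rcases lt_or_ge (#(Σ l, J l)) ℵ₀ with h4 | h4
  · exact lt_of_lt_of_le (Cardinal.power_lt_aleph0 h4 (Cardinal.natCast_lt_aleph0)) hκ.aleph0_le
  · exact lt_of_le_of_lt (Cardinal.power_nat_le h4) h2

theorem card_tuple_le (hκ : κ.IsRegular) (hE : GenCompact κ (Node κ.ord.ToType)) {d : ℕ}
    (T : Fin d → Set (Node κ.ord.ToType)) : #((l : Fin d) → T l) ≤ κ := by
  have h1 : #((l : Fin d) → T l) ≤ #(Fin d → Node κ.ord.ToType) := by
    refine Cardinal.mk_le_of_injective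
      (f := fun (f : (l : Fin d) → T l) => fun l => (f l : Node κ.ord.ToType)) ?_
    intro f g hfg
    funext l
    exact Subtype.ext (congrFun hfg l)
  refine h1.trans ?_
  have h3 : #(Fin d → Node κ.ord.ToType) = #(Node κ.ord.ToType) ^ d := by
    simp
  rw [h3]
  exact (Cardinal.power_le_power_right (card_node_le' hκ hE)).trans
    (Cardinal.power_nat_le hκ.aleph0_le)

/-- **Boxes on levels** of finitely many regular trees. -/
theorem exists_boxes_level_fin (hκ : κ.IsRegular) (hE : GenCompact κ (Node κ.ord.ToType))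
    {d : ℕ} (hbox : BoxProp κ d) {T : Fin d → Set (Node κ.ord.ToType)}
    (hT : ∀ l, IsRegularTree (T l)) {ι : Type} (hι : #ι < κ) (c : ((l : Fin d) → T l) → ι)
    (a : (l : Fin d) → T l) (B : Set κ.ord.ToType) (hB : ∀ a, ∃ b ∈ B, a < b) :
    ∃ F : Filter κ.ord.ToType, F.NeBot ∧ (∀ a, Ioi a ∈ F) ∧ B ∈ F ∧
      ∃ s : (l : Fin d) → T l, (∀ l, a l ≤ s l) ∧ ∃ i : ι,
        ∀ J : Fin d → Type, (∀ l, #(J l) < κ) →
          ∀ p : (l : Fin d) → J l → T l, (∀ l j, s l ≤ p l j) →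
            {ζ | ∃ x : (l : Fin d) → J l → T l,
              (∀ l j, p l j ≤ x l j ∧ (x l j : Node κ.ord.ToType).len = ζ) ∧
              ∀ f : (l : Fin d) → J l, c (fun l => x l (f l)) = i} ∈ F := by
  classical
  have hb : ∀ (l : Fin d) (s : T l) (ζ : κ.ord.ToType), ∃ r : T l,
      (s : Node κ.ord.ToType).len ≤ ζ → s ≤ r ∧ (r : Node κ.ord.ToType).len = ζ := by
    intro l s ζ
    by_cases h : (s : Node κ.ord.ToType).len ≤ ζ
    · obtain ⟨r, hr⟩ := exists_level (hT l) s ζ h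
      exact ⟨r, fun _ => hr⟩
    · exact ⟨s, fun h' => absurd h' h⟩
  choose b hb using hb
  have hmul : #(((l : Fin d) → T l) × ι) ≤ κ := by
    rw [Cardinal.mk_prod]
    simp only [Cardinal.lift_id]
    exact (mul_le_mul' (card_tuple_le hκ hE T) hι.le).trans
      (Cardinal.mul_eq_self hκ.aleph0_le).le
  obtain ⟨F, hF1, hF2, hF3, hF4, hF5⟩ := exists_filter' hκ hE (I := ((l : Fin d) → T l) × ι)
    hmul (fun z => {ζ | c (fun l => b l (z.1 l) ζ) = z.2}) B hB
  have hlim : ∀ s : (l : Fin d) → T l, ∃ i : ι, {ζ | c (fun l => b l (s l) ζ) = i} ∈ F := by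
    intro s
    by_contra hcon
    push Not at hcon
    have h1 : (⋂ i : ι, {ζ | c (fun l => b l (s l) ζ) = i}ᶜ) ∈ F :=
      (Filter.cardinal_iInter_mem hι).2 (fun i => (hF5 (s, i)).resolve_left (hcon i))
    obtain ⟨ζ, hζ⟩ := Filter.nonempty_of_mem h1
    exact mem_iInter.1 hζ (c (fun l => b l (s l) ζ)) rfl
  choose c' hc' using hlim
  choose π hπl hπm hπp using fun l => exists_proj hκ (hT l)
  obtain ⟨o, ho⟩ := exists_least hκ
  have hroot : ∀ (l : Fin d) (a : T l), π l (nodeOf o ho (fun _ => o) o) ≤ a := by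
    intro l a
    have hl : (π l (nodeOf o ho (fun _ => o) o) : Node κ.ord.ToType).len = o := hπl l _
    refine ⟨?_, fun η hη => ?_⟩
    · rw [hl]; exact ho _
    · rw [hl] at hη
      exact absurd hη (not_lt.2 (ho η))
  choose p₀ hp₀ using fun l => hπp l _ (a l) (hroot l (a l))
  obtain ⟨s, hs, i, hi⟩ := hbox ι hι (fun p => c' (fun l => π l (p l))) p₀
  refine ⟨F, hF1, hF3, hF4, fun l => π l (s l), fun l => ?_, i, fun J hJ p hp => ?_⟩
  · have h1 := hπm l _ _ (hs l)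
    rwa [(hp₀ l).2] at h1
  choose p' hp's hp'p using fun (l : Fin d) (j : J l) => hπp l (s l) (p l j) (hp l j)
  obtain ⟨x, hx, hxi⟩ := hi J hJ p' hp's
  obtain ⟨L, hL⟩ := exists_bound hκ (card_sigma_lt hκ hJ)
    (fun z : Σ l, J l => (π z.1 (x z.1 z.2) : Node κ.ord.ToType).len)
  have h1 : (⋂ f : (l : Fin d) → J l, {ζ | c (fun l => b l (π l (x l (f l))) ζ) = i}) ∈ F := by
    refine (Filter.cardinal_iInter_mem (card_pi_lt hκ hJ)).2 fun f => ?_
    have h2 := hc' (fun l => π l (x l (f l)))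
    have h3 : c' (fun l => π l (x l (f l))) = i := hxi f
    rwa [h3] at h2
  refine Filter.mem_of_superset (Filter.inter_mem h1 (hF3 L)) ?_
  rintro ζ ⟨hζ, hζL⟩
  refine ⟨fun l j => b l (π l (x l j)) ζ, fun l j => ?_, fun f => mem_iInter.1 hζ f⟩
  have h3 := hb l (π l (x l j)) ζ ((hL ⟨l, j⟩).trans (le_of_lt hζL))
  have h4 : p l j ≤ π l (x l j) := by
    have := hπm l _ _ (hx l j)
    rwa [hp'p l j] at this
  exact ⟨h4.trans h3.1, h3.2⟩

end Pool.Agent.Helper39.HL
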