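import Pool.Agent.Helper39.HL.FinalD
import Pool.Agent.Helper39.HL.LevelsD

/-!
# The Halpern-Lauchli property from boxes
-/

open Cardinal Set Helper2.HB Pool.Agent.Helper58.HL

namespace Pool.Agent.Helper39.HL

/-- Strong subtrees with a common level set, from boxes and generic compactness. -/
theorem hl_of_boxProp (κ : Cardinal.{0}) (hκ : κ.IsRegular)
    (hE : GenCompact κ (Node κ.ord.ToType)) (d : ℕ) (hbox : BoxProp κ d)
    (T : Fin d → Set (Node κ.ord.ToType)) (hT : ∀ l, IsRegularTree (T l))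
    (ι : Type) (hι : #ι < κ) (c : (Fin d → Node κ.ord.ToType) → ι)
    (a : Fin d → Node κ.ord.ToType) (ha : ∀ l, a l ∈ T l)
    (B : Set κ.ord.ToType) (hB : ∀ a, ∃ b ∈ B, a < b) :
    ∃ A ⊆ B, (∀ a, ∃ ζ ∈ A, a < ζ) ∧ ∃ (T' : Fin d → Set (Node κ.ord.ToType)) (i : ι),
      (∀ l, a l ∈ T' l ∧ IsStrongSubtree (T l) A (T' l) ∧
        ((∀ t ∈ T l, t.len ∈ A → Splits (T l) t) → IsRegularTree (T' l))) ∧
      ∀ ζ ∈ A, {j | ∃ v : Fin d → Node κ.ord.ToType,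
        (∀ l, v l ∈ T' l ∧ (v l).len = ζ) ∧ c v = j} = {i} := by
  obtain ⟨F, hF, hFt, hBF, s, hs, i, hb⟩ := exists_boxes_level_fin hκ hE hbox hT hι
    (fun v => c fun l => v l) (fun l => ⟨a l, ha l⟩) B hB
  obtain ⟨A, hAB, hA, T', hT', hc⟩ :=
    strong_of_boxes_fin hκ hT F hFt (fun v => c fun l => v l) s i hb B hBF
  refine ⟨A, hAB, hA, T', i, fun l => ⟨(hT' l).2.1.down _ (hT' l).1 _ (hs l), (hT' l).2.1,
    (hT' l).2.2.2⟩, ?_⟩
  intro ζ hζ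
  ext j
  constructor
  · rintro ⟨v, hv, rfl⟩
    exact hc ζ hζ (fun l => ⟨v l, (hT' l).2.1.subset (hv l).1⟩) hv
  · rintro rfl
    choose v hv hvl using fun l => (hT' l).2.2.1 ζ
    exact ⟨v, fun l => ⟨hv l, hvl l⟩,
      hc ζ hζ (fun l => ⟨v l, (hT' l).2.1.subset (hv l)⟩) fun l => ⟨hv l, hvl l⟩⟩

end Pool.Agent.Helper39.HL
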