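import Pool.Agent.Helper58.HL.Univ

/-!
# Boxes on levels without a measure

Generic compactness of the full tree gives, for every list of `κ` subsets of `κ`, a proper
`κ`-complete filter on `κ` that contains the tails and decides all sets of the list. So no
ultrafilter on `κ` has to be assumed.
-/

set_option autoImplicit false

open Cardinal Set Helper2.HB Pool.Agent.Helper58.HL

namespace Pool.Agent.Helper39.HL

universe u

/-- Long increasing sequences: only the initial segments have to be bounded. -/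
theorem closed_seq {κ : Cardinal.{u}} (hκ : ℵ₀ ≤ κ) {P : Type u} [Preorder P] (hP : Closed κ P)
    {ι : Type u} [LinearOrder ι] [WellFoundedLT ι] (hι : ∀ i : ι, #(Iio i) < κ)
    (R : ι → P → Prop) (p₀ : P) (hd : ∀ i p, p₀ ≤ p → ∃ p', p ≤ p' ∧ R i p') :
    ∃ g : ι → P, ∀ i, (∀ j < i, g j ≤ g i) ∧ p₀ ≤ g i ∧ R i (g i) := by
  classical
  choose! ext hext1 hext2 using hd
  let F : (i : ι) → ((j : ι) → j < i → P) → P := fun i h =>
    if H : ∃ u, p₀ ≤ u ∧ ∀ j (hj : j < i), h j hj ≤ u then ext i H.choose else p₀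
  let g : ι → P := (wellFounded_lt (α := ι)).fix F
  have hg : ∀ i, g i = F i (fun j _ => g j) := fun i => WellFounded.fix_eq _ _ _
  refine ⟨g, ?_⟩
  intro i
  induction i using WellFoundedLT.induction with
  | ind i ih =>
    have H : ∃ u, p₀ ≤ u ∧ ∀ j (_ : j < i), g j ≤ u := by
      let C : Set P := insert p₀ (g '' Iio i)
      have hch : IsChain (· ≤ ·) C := by
        rintro a (rfl | ⟨j, hj, rfl⟩) b (rfl | ⟨k, hk, rfl⟩) hab
        · exact absurd rfl hab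
        · exact Or.inl (ih k hk).2.1
        · exact Or.inr (ih j hj).2.1
        · rcases lt_trichotomy j k with h | h | h
          · exact Or.inl ((ih k hk).1 j h)
          · exact absurd (by rw [h]) hab
          · exact Or.inr ((ih j hj).1 k h)
      have hcard : #C < κ := by
        refine lt_of_le_of_lt (mk_insert_le) ?_
        refine add_lt_of_lt hκ ?_ (lt_of_lt_of_le one_lt_aleph0 hκ)
        exact lt_of_le_of_lt mk_image_le (hι i)
      obtain ⟨u, hu⟩ := hP C ⟨p₀, mem_insert _ _⟩ hch hcard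
      exact ⟨u, hu (mem_insert _ _), fun j hj => hu (mem_insert_of_mem _ ⟨j, hj, rfl⟩)⟩
    have hgi : g i = ext i H.choose := by
      rw [hg i]
      exact dif_pos H
    have h1 := H.choose_spec
    refine ⟨fun j hj => ?_, ?_, ?_⟩
    · rw [hgi]; exact (h1.2 j hj).trans (hext1 i _ h1.1)
    · rw [hgi]; exact h1.1.trans (hext1 i _ h1.1)
    · rw [hgi]; exact hext2 i _ h1.1

variable {κ : Cardinal.{0}}

/-- **Weak compactness of `κ`**, from generic compactness of the full tree: a proper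
`κ`-complete filter containing the tails and a given cofinal set `B` that decides `κ` given
sets. -/
theorem exists_filter (hκ : κ.IsRegular) (hE : GenCompact κ (Node κ.ord.ToType))
    (S : κ.ord.ToType → Set κ.ord.ToType) (B : Set κ.ord.ToType) (hB : ∀ a, ∃ b ∈ B, a < b) :
    ∃ F : Filter κ.ord.ToType, F.NeBot ∧ CardinalInterFilter F κ ∧ (∀ a, Ioi a ∈ F) ∧ B ∈ F ∧
      ∀ a, S a ∈ F ∨ (S a)ᶜ ∈ F := by
  classical
  choose e heB hea using hB
  obtain ⟨E, hF, hd⟩ := hE (fun a => {u | e u.len ∈ S a})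
  obtain ⟨b, hb⟩ := exists_least hκ
  obtain ⟨g, hg⟩ := closed_seq hκ.aleph0_le (closed_node hκ)
    (ι := κ.ord.ToType) (fun ζ => Cardinal.mk_Iio_toType_ord_lt ζ)
    (fun a p => a ≤ p.len ∧ ({u | e u.len ∈ S a} ∈ E p ∨ {u | e u.len ∈ S a}ᶜ ∈ E p))
    (nodeOf b hb (fun _ => b) b) (by
      intro a p _
      obtain ⟨p', h1, h2⟩ := hd a (nodeOf b hb p.val (max a p.len))
      refine ⟨p', le_trans ⟨le_max_right _ _, fun η hη => ?_⟩ h1, ?_, h2⟩
      · rw [nodeOf_val _ _ _ _ (hη.trans_le (le_max_right _ _))]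
      · exact (le_max_left _ _).trans h1.1)
  have hmono : ∀ i j, i ≤ j → g i ≤ g j := by
    intro i j hij
    rcases eq_or_lt_of_le hij with h | h
    · rw [h]
    · exact (hg j).1 i h
  have hmonoE : ∀ i j, i ≤ j → ∀ A ∈ E (g i), A ∈ E (g j) :=
    fun i j hij A hA => hF.mono _ _ (hmono i j hij) hA
  let F : Filter κ.ord.ToType :=
    { sets := {A | ∃ i, {u : Node κ.ord.ToType | e u.len ∈ A} ∈ E (g i)}
      univ_sets := ⟨b, by simp⟩
      sets_of_superset := by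
        rintro x y ⟨i, hi⟩ hxy
        exact ⟨i, Filter.mem_of_superset hi fun u hu => hxy hu⟩
      inter_sets := by
        rintro x y ⟨i, hi⟩ ⟨j, hj⟩
        exact ⟨max i j, Filter.inter_mem (hmonoE i _ (le_max_left _ _) _ hi)
          (hmonoE j _ (le_max_right _ _) _ hj)⟩ }
  have hmem : ∀ A, A ∈ F ↔ ∃ i, {u : Node κ.ord.ToType | e u.len ∈ A} ∈ E (g i) :=
    fun A => Iff.rfl
  refine ⟨F, ?_, ⟨?_⟩, ?_, ?_, ?_⟩
  · rw [Filter.neBot_iff, Ne, ← Filter.empty_mem_iff_bot, hmem]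
    rintro ⟨i, hi⟩
    have := hF.ne (g i)
    obtain ⟨u, hu⟩ := Filter.nonempty_of_mem hi
    exact hu
  · intro 𝒮 h𝒮 hall
    have hall' : ∀ A : 𝒮, ∃ i, {u : Node κ.ord.ToType | e u.len ∈ A.1} ∈ E (g i) :=
      fun A => (hmem _).1 (hall A.1 A.2)
    choose f hf using hall'
    obtain ⟨l, hl⟩ := exists_bound hκ h𝒮 f
    rw [hmem]
    refine ⟨l, ?_⟩
    have := hF.complete (g l)
    have h1 : (⋂ A : 𝒮, {u : Node κ.ord.ToType | e u.len ∈ A.1}) ∈ E (g l) :=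
      (Filter.cardinal_iInter_mem h𝒮).2 fun A => hmonoE _ _ (hl A) _ (hf A)
    refine Filter.mem_of_superset h1 fun u hu => ?_
    exact mem_sInter.2 fun A hA => mem_iInter.1 hu ⟨A, hA⟩
  · intro a
    rw [hmem]
    refine ⟨a, Filter.mem_of_superset (hF.cone_mem (g a)) fun u hu => ?_⟩
    have h1 : a ≤ u.len := (hg a).2.2.1.trans (show g a ≤ u from hu).1
    exact h1.trans_lt (hea _)
  · rw [hmem]
    exact ⟨b, Filter.mem_of_superset Filter.univ_mem fun u _ => heB _⟩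
  · intro a
    rcases (hg a).2.2.2 with h | h
    · exact Or.inl ((hmem _).2 ⟨a, h⟩)
    · exact Or.inr ((hmem _).2 ⟨a, h⟩)

theorem exists_filter' (hκ : κ.IsRegular) (hE : GenCompact κ (Node κ.ord.ToType))
    {I : Type} (hI : #I ≤ κ) (S : I → Set κ.ord.ToType) (B : Set κ.ord.ToType)
    (hB : ∀ a, ∃ b ∈ B, a < b) :
    ∃ F : Filter κ.ord.ToType, F.NeBot ∧ CardinalInterFilter F κ ∧ (∀ a, Ioi a ∈ F) ∧ B ∈ F ∧
      ∀ a, S a ∈ F ∨ (S a)ᶜ ∈ F := by
  classical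
  have h : #I ≤ #κ.ord.ToType := by rwa [Cardinal.mk_ord_toType]
  obtain ⟨φ⟩ := h
  obtain ⟨F, h1, h2, h3, h4, h5⟩ := exists_filter hκ hE
    (fun b => if h : ∃ a, φ a = b then S h.choose else univ) B hB
  refine ⟨F, h1, h2, h3, h4, fun a => ?_⟩
  have h6 := h5 (φ a)
  have hex : ∃ a', φ a' = φ a := ⟨a, rfl⟩
  simp only [dif_pos hex] at h6
  have h7 : hex.choose = a := φ.injective hex.choose_spec
  rwa [h7] at h6

/-- `κ` is a strong limit. -/
theorem card_set_lt' (hκ : κ.IsRegular) (hE : GenCompact κ (Node κ.ord.ToType)) {Z : Type}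
    (hZ : #Z < κ) : #(Set Z) < κ := by
  classical
  have : NoMaxOrder κ.ord.ToType := Cardinal.noMaxOrder hκ.aleph0_le
  by_contra hcon
  have h1 : #κ.ord.ToType ≤ #(Set Z) := by rw [Cardinal.mk_ord_toType]; exact not_lt.1 hcon
  obtain ⟨f⟩ := h1
  obtain ⟨F, hF1, hF2, hF3, -, hF5⟩ := exists_filter' hκ hE hZ.le (fun z => {ζ | z ∈ f ζ}) univ
    (fun a => by obtain ⟨b, hb⟩ := exists_gt a; exact ⟨b, mem_univ _, hb⟩)
  have h2 : (⋂ z : Z, {ζ | z ∈ f ζ ↔ {ζ' | z ∈ f ζ'} ∈ F}) ∈ F := by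
    refine (Filter.cardinal_iInter_mem hZ).2 fun z => ?_
    by_cases h : {ζ' | z ∈ f ζ'} ∈ F
    · refine Filter.mem_of_superset h fun ζ hζ => ?_
      exact ⟨fun _ => h, fun _ => hζ⟩
    · refine Filter.mem_of_superset ((hF5 z).resolve_left h) fun ζ hζ => ?_
      exact ⟨fun h' => absurd h' hζ, fun h' => absurd h' h⟩
  obtain ⟨ζ₀, hζ₀⟩ := Filter.nonempty_of_mem h2
  obtain ⟨ζ₁, hζ₁, hlt⟩ := Filter.nonempty_of_mem (Filter.inter_mem h2 (hF3 ζ₀))
  have h3 : f ζ₀ = f ζ₁ := by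
    ext z
    exact (mem_iInter.1 hζ₀ z).trans (mem_iInter.1 hζ₁ z).symm
  exact absurd (f.injective h3) (ne_of_lt hlt)

theorem card_node_le' (hκ : κ.IsRegular) (hE : GenCompact κ (Node κ.ord.ToType)) :
    #(Node κ.ord.ToType) ≤ κ := by
  classical
  have : NoMaxOrder κ.ord.ToType := Cardinal.noMaxOrder hκ.aleph0_le
  have hIio : ∀ ζ : κ.ord.ToType, #(Iio ζ) < κ := fun ζ => Cardinal.mk_Iio_toType_ord_lt ζ
  have hIic : ∀ ζ : κ.ord.ToType, #(Iic ζ) < κ := by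
    intro ζ
    obtain ⟨ξ, hξ⟩ := exists_gt ζ
    exact lt_of_le_of_lt (Cardinal.mk_le_mk_of_subset fun x hx => lt_of_le_of_lt hx hξ) (hIio ξ)
  have hbd : ∀ p : Node κ.ord.ToType, ∃ B, ∀ η : Iio p.len, p.val η ≤ B := fun p =>
    exists_bound hκ (hIio p.len) (fun η : Iio p.len => p.val η)
  choose B hB using hbd
  have h1 : #(Node κ.ord.ToType) ≤
      #(Σ z : κ.ord.ToType × κ.ord.ToType, (Iio z.1 → Iic z.2)) := by
    refine Cardinal.mk_le_of_injective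
      (f := fun p : Node κ.ord.ToType => (⟨(p.len, B p), fun η => ⟨p.val η, hB p η⟩⟩ :
        Σ z : κ.ord.ToType × κ.ord.ToType, (Iio z.1 → Iic z.2))) ?_
    intro p q hpq
    have hpq1 := congrArg Sigma.fst hpq
    have hlen : p.len = q.len := congrArg Prod.fst hpq1
    refine Node.eq_of hlen fun η hη => ?_
    have key : ∀ z w : (Σ z : κ.ord.ToType × κ.ord.ToType, (Iio z.1 → Iic z.2)), z = w →
        ∀ (h1 : η < z.1.1) (h2 : η < w.1.1), ((z.2 ⟨η, h1⟩ : Iic z.1.2) : κ.ord.ToType) =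
          ((w.2 ⟨η, h2⟩ : Iic w.1.2) : κ.ord.ToType) := by
      rintro z w rfl _ _; rfl
    exact key _ _ hpq hη (lt_of_lt_of_eq hη hlen)
  refine h1.trans ?_
  rw [Cardinal.mk_sigma]
  have h2 : ∀ z : κ.ord.ToType × κ.ord.ToType, #(Iio z.1 → Iic z.2) ≤ κ := by
    intro z
    have h3 : #(Iio z.1 → Iic z.2) ≤ #(Set (Iio z.1 × Iic z.2)) := by
      refine Cardinal.mk_le_of_injective
        (f := fun g : Iio z.1 → Iic z.2 => {w : Iio z.1 × Iic z.2 | g w.1 = w.2}) ?_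
      intro g g' hgg
      funext η
      have h4 : ((η, g η) : Iio z.1 × Iic z.2) ∈ {w : Iio z.1 × Iic z.2 | g w.1 = w.2} := rfl
      have hgg' : {w : Iio z.1 × Iic z.2 | g w.1 = w.2} =
        {w : Iio z.1 × Iic z.2 | g' w.1 = w.2} := hgg
      rw [hgg'] at h4
      exact (show g' η = g η from h4).symm
    refine h3.trans (card_set_lt' hκ hE ?_).le
    rw [Cardinal.mk_prod]
    simp only [Cardinal.lift_id]
    exact Cardinal.mul_lt_of_lt hκ.aleph0_le (hIio _) (hIic _)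
  refine (Cardinal.sum_le_sum _ (fun _ => κ) h2).trans ?_
  rw [Cardinal.sum_const]
  simp only [Cardinal.lift_id]
  rw [Cardinal.mk_prod]
  simp only [Cardinal.lift_id, Cardinal.mk_ord_toType]
  rw [Cardinal.mul_eq_self hκ.aleph0_le, Cardinal.mul_eq_self hκ.aleph0_le]

/-- **Boxes on levels** of any two regular trees, from generic compactness of the full tree. -/
theorem exists_boxes_level_gen (hκ : κ.IsRegular)
    {T₀ T₁ : Set (Node κ.ord.ToType)}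
    (h₀ : IsRegularTree T₀) (h₁ : IsRegularTree T₁)
    (hE : GenCompact κ (Node κ.ord.ToType)) {ι : Type} (hι : #ι < κ) (c : T₀ → T₁ → ι)
    (a₀ : T₀) (a₁ : T₁) (B : Set κ.ord.ToType) (hB : ∀ a, ∃ b ∈ B, a < b) :
    ∃ F : Filter κ.ord.ToType, F.NeBot ∧ (∀ a, Ioi a ∈ F) ∧ B ∈ F ∧
      ∃ s, a₀ ≤ s ∧ ∃ t, a₁ ≤ t ∧ ∃ i : ι, ∀ (M J : Type), #M < κ → #J < κ →
      ∀ (p : M → T₀) (q : J → T₁), (∀ m, s ≤ p m) → (∀ j, t ≤ q j) →
        {ζ | ∃ (x : M → T₀) (y : J → T₁),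
          (∀ m, p m ≤ x m ∧ (x m : Node κ.ord.ToType).len = ζ) ∧
          (∀ j, q j ≤ y j ∧ (y j : Node κ.ord.ToType).len = ζ) ∧
          ∀ m j, c (x m) (y j) = i} ∈ F := by
  classical
  have hb₀ : ∀ (s : T₀) (ζ : κ.ord.ToType), ∃ r : T₀, (s : Node κ.ord.ToType).len ≤ ζ →
      s ≤ r ∧ (r : Node κ.ord.ToType).len = ζ := by
    intro s ζ
    by_cases h : (s : Node κ.ord.ToType).len ≤ ζ
    · obtain ⟨r, hr⟩ := exists_level h₀ s ζ h
      exact ⟨r, fun _ => hr⟩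
    · exact ⟨s, fun h' => absurd h' h⟩
  have hb₁ : ∀ (s : T₁) (ζ : κ.ord.ToType), ∃ r : T₁, (s : Node κ.ord.ToType).len ≤ ζ →
      s ≤ r ∧ (r : Node κ.ord.ToType).len = ζ := by
    intro s ζ
    by_cases h : (s : Node κ.ord.ToType).len ≤ ζ
    · obtain ⟨r, hr⟩ := exists_level h₁ s ζ h
      exact ⟨r, fun _ => hr⟩
    · exact ⟨s, fun h' => absurd h' h⟩
  choose b₀ hb₀ using hb₀
  choose b₁ hb₁ using hb₁
  have hmul : ∀ {A B : Type}, #A ≤ κ → #B ≤ κ → #(A × B) ≤ κ := by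
    intro A B hA hB
    rw [Cardinal.mk_prod]
    simp only [Cardinal.lift_id]
    exact (mul_le_mul' hA hB).trans (Cardinal.mul_eq_self hκ.aleph0_le).le
  have hT₀ : #T₀ ≤ κ := by rw [h₀.card, Cardinal.mk_ord_toType]
  have hT₁ : #T₁ ≤ κ := by rw [h₁.card, Cardinal.mk_ord_toType]
  obtain ⟨F, hF1, hF2, hF3, hF4, hF5⟩ := exists_filter' hκ hE (I := (T₀ × T₁) × ι)
    (hmul (hmul hT₀ hT₁) hι.le)
    (fun z => {ζ | c (b₀ z.1.1 ζ) (b₁ z.1.2 ζ) = z.2}) B hB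
  have hlim : ∀ (s : T₀) (t : T₁), ∃ i : ι, {ζ | c (b₀ s ζ) (b₁ t ζ) = i} ∈ F := by
    intro s t
    by_contra hcon
    push Not at hcon
    have h1 : (⋂ i : ι, {ζ | c (b₀ s ζ) (b₁ t ζ) = i}ᶜ) ∈ F :=
      (Filter.cardinal_iInter_mem hι).2
        (fun i => (hF5 ((s, t), i)).resolve_left (hcon i))
    obtain ⟨ζ, hζ⟩ := Filter.nonempty_of_mem h1
    exact mem_iInter.1 hζ (c (b₀ s ζ) (b₁ t ζ)) rfl
  choose c' hc' using hlim
  obtain ⟨π₀, hπ₀l, hπ₀m, hπ₀p⟩ := exists_proj hκ h₀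
  obtain ⟨π₁, hπ₁l, hπ₁m, hπ₁p⟩ := exists_proj hκ h₁
  -- starting points
  obtain ⟨b, hb⟩ := exists_least hκ
  have hroot : ∀ (T : Set (Node κ.ord.ToType)) (π : Node κ.ord.ToType → T),
      (∀ p, (π p : Node κ.ord.ToType).len = p.len) → ∀ a : T,
      π (nodeOf b hb (fun _ => b) b) ≤ a := by
    intro T π hπ a
    have hl : (π (nodeOf b hb (fun _ => b) b) : Node κ.ord.ToType).len = b := hπ _
    refine ⟨?_, fun η hη => ?_⟩
    · rw [hl]; exact hb _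
    · rw [hl] at hη
      exact absurd hη (not_lt.2 (hb η))
  obtain ⟨p₀, -, hp₀⟩ := hπ₀p _ a₀ (hroot T₀ π₀ hπ₀l a₀)
  obtain ⟨p₁, -, hp₁⟩ := hπ₁p _ a₁ (hroot T₁ π₁ hπ₁l a₁)
  have hN : #(Node κ.ord.ToType) ≤ κ := card_node_le' hκ hE
  set c'' : Node κ.ord.ToType → Node κ.ord.ToType → ι := fun p q => c' (π₀ p) (π₁ q) with hc''
  obtain ⟨E₁, hF₁, hd₁⟩ := hE.exists_of_le (I := Node κ.ord.ToType × ι) (hmul hN hι.le)
    (fun z => {y | c'' z.1 y = z.2})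
  obtain ⟨E₀, hF₀, hd₀⟩ := hE.exists_of_le (I := ι × Node κ.ord.ToType) (hmul hι.le hN)
    (fun z => possible E₁ c'' z.1 z.2)
  have : Nonempty (Node κ.ord.ToType) := ⟨p₀⟩
  obtain ⟨s, hs, t, ht, i, hi⟩ := exists_boxes_of_decides hκ.aleph0_le (closed_node hκ)
    (closed_node hκ) (cone₀ := Ici) (cone₁ := Ici) (fun p p' h => Ici_subset_Ici.2 h)
    (fun p p' h => Ici_subset_Ici.2 h) hF₀ hF₁ hι c'' (fun x i => hd₁ (x, i))
    (fun i t => hd₀ (i, t)) p₀ p₁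
  refine ⟨F, hF1, hF3, hF4, π₀ s, hp₀ ▸ hπ₀m _ _ hs, π₁ t, hp₁ ▸ hπ₁m _ _ ht, i,
    fun M J hM hJ p q hp hq => ?_⟩
  choose p' hp's hp'p using fun m => hπ₀p s (p m) (hp m)
  choose q' hq's hq'q using fun j => hπ₁p t (q j) (hq j)
  obtain ⟨x, y, hx, hy, hxy⟩ := hi M J hM hJ p' q' hp's hq's
  obtain ⟨l, hl⟩ := exists_bound hκ hM (fun m => (π₀ (x m) : Node κ.ord.ToType).len)
  obtain ⟨l', hl'⟩ := exists_bound hκ hJ (fun j => (π₁ (y j) : Node κ.ord.ToType).len)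
  have hMJ : #(M × J) < κ := by
    rw [Cardinal.mk_prod]
    simp only [Cardinal.lift_id]
    exact Cardinal.mul_lt_of_lt hκ.aleph0_le hM hJ
  have h1 : (⋂ z : M × J, {ζ | c (b₀ (π₀ (x z.1)) ζ) (b₁ (π₁ (y z.2)) ζ) = i}) ∈ F := by
    refine (Filter.cardinal_iInter_mem hMJ).2 fun z => ?_
    have := hc' (π₀ (x z.1)) (π₁ (y z.2))
    have h2 : c' (π₀ (x z.1)) (π₁ (y z.2)) = i := hxy z.1 z.2
    rwa [h2] at this
  refine Filter.mem_of_superset (Filter.inter_mem h1 (Filter.inter_mem (hF3 l) (hF3 l'))) ?_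
  rintro ζ ⟨hζ, hζl, hζl'⟩
  refine ⟨fun m => b₀ (π₀ (x m)) ζ, fun j => b₁ (π₁ (y j)) ζ, fun m => ?_, fun j => ?_,
    fun m j => ?_⟩
  · have h3 := hb₀ (π₀ (x m)) ζ ((hl m).trans (le_of_lt hζl))
    have h4 : p m ≤ π₀ (x m) := by
      have := hπ₀m _ _ (hx m : p' m ≤ x m)
      rwa [hp'p m] at this
    exact ⟨h4.trans h3.1, h3.2⟩
  · have h3 := hb₁ (π₁ (y j)) ζ ((hl' j).trans (le_of_lt hζl'))
    have h4 : q j ≤ π₁ (y j) := by
      have := hπ₁m _ _ (hy j : q' j ≤ y j)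
      rwa [hq'q j] at this
    exact ⟨h4.trans h3.1, h3.2⟩
  · exact mem_iInter.1 hζ (m, j)

end Pool.Agent.Helper39.HL
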