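import Pool.Agent.Helper39.HL.LevelsD
import Pool.Agent.Helper2.HB.Stat

/-!
# Boxes reflect upwards

If `κ` is a regular strong limit and the box property holds at stationarily many regular
`ξ < κ`, then it holds at `κ`. With weak compactness of `κ` this gives boxes on levels.
-/

set_option autoImplicit false

open Cardinal Set Helper2.HB Pool.Agent.Helper58.HL

namespace Pool.Agent.Helper39.HL

variable {κ : Cardinal.{0}}

/-- `κ` is weakly compact, in the form of the filter property: for any `κ` subsets of `κ` there is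
a proper `κ`-complete filter that contains the final segments and decides these subsets. -/
def WeaklyCompact (κ : Cardinal.{0}) : Prop :=
  ∀ S : κ.ord.ToType → Set κ.ord.ToType, ∃ F : Filter κ.ord.ToType, F.NeBot ∧
    CardinalInterFilter F κ ∧ (∀ a, Ioi a ∈ F) ∧ ∀ a, S a ∈ F ∨ (S a)ᶜ ∈ F

theorem weaklyCompact_of_gen (hκ : κ.IsRegular) (hE : GenCompact κ (Node κ.ord.ToType)) :
    WeaklyCompact κ := by
  have : NoMaxOrder κ.ord.ToType := Cardinal.noMaxOrder hκ.aleph0_le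
  intro S
  obtain ⟨F, h1, h2, h3, -, h5⟩ := exists_filter hκ hE S univ
    (fun a => by obtain ⟨b, hb⟩ := exists_gt a; exact ⟨b, mem_univ _, hb⟩)
  exact ⟨F, h1, h2, h3, h5⟩

theorem WeaklyCompact.exists_of_le (hW : WeaklyCompact κ) {I : Type} (hI : #I ≤ κ)
    (S : I → Set κ.ord.ToType) (B : Set κ.ord.ToType) (hB : ∀ a, ∃ b ∈ B, a < b) :
    ∃ F : Filter κ.ord.ToType, F.NeBot ∧ CardinalInterFilter F κ ∧ (∀ a, Ioi a ∈ F) ∧ B ∈ F ∧
      ∀ a, S a ∈ F ∨ (S a)ᶜ ∈ F := by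
  classical
  choose e heB hea using hB
  have h : #I ≤ #κ.ord.ToType := by rwa [Cardinal.mk_ord_toType]
  obtain ⟨φ⟩ := h
  obtain ⟨F, h1, h2, h3, h5⟩ := hW
    (fun b => if h : ∃ a, φ a = b then e ⁻¹' S h.choose else univ)
  refine ⟨Filter.map e F, h1.map e, inferInstance, fun a => ?_, ?_, fun a => ?_⟩
  · exact Filter.mem_map.2 (Filter.mem_of_superset (h3 a) fun x hx =>
      lt_trans (show a < x from hx) (hea x))
  · exact Filter.mem_map.2 (Filter.mem_of_superset Filter.univ_mem fun x _ => heB x)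
  · have h6 := h5 (φ a)
    have hex : ∃ a', φ a' = φ a := ⟨a, rfl⟩
    simp only [dif_pos hex] at h6
    have h7 : hex.choose = a := φ.injective hex.choose_spec
    rwa [h7] at h6

theorem WeaklyCompact.card_set_lt (hκ : κ.IsRegular) (hW : WeaklyCompact κ) {Z : Type}
    (hZ : #Z < κ) : #(Set Z) < κ := by
  classical
  have : NoMaxOrder κ.ord.ToType := Cardinal.noMaxOrder hκ.aleph0_le
  by_contra hcon
  have h1 : #κ.ord.ToType ≤ #(Set Z) := by rw [Cardinal.mk_ord_toType]; exact not_lt.1 hcon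
  obtain ⟨f⟩ := h1
  obtain ⟨F, hF1, hF2, hF3, -, hF5⟩ := hW.exists_of_le hZ.le (fun z => {ζ | z ∈ f ζ}) univ
    (fun a => by obtain ⟨b, hb⟩ := exists_gt a; exact ⟨b, mem_univ _, hb⟩)
  have h2 : (⋂ z : Z, {ζ | z ∈ f ζ ↔ {ζ' | z ∈ f ζ'} ∈ F}) ∈ F := by
    refine (Filter.cardinal_iInter_mem hZ).2 fun z => ?_
    by_cases h : {ζ' | z ∈ f ζ'} ∈ F
    · refine Filter.mem_of_superset h fun ζ hζ => ?_
      exact ⟨fun _ => h, fun _ => hζ⟩
    · refine Filter.mem_of_superset ((hF5 z).resolve_left h) fun ζ hζ => ?_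
      exact ⟨fun h' => absurd h' hζ, fun h' => absurd h' h⟩
  obtain ⟨ζ₀, hζ₀⟩ := Filter.nonempty_of_mem h2
  obtain ⟨ζ₁, hζ₁, hlt⟩ := Filter.nonempty_of_mem (Filter.inter_mem h2 (hF3 ζ₀))
  have h3 : f ζ₀ = f ζ₁ := by
    ext z
    exact (mem_iInter.1 hζ₀ z).trans (mem_iInter.1 hζ₁ z).symm
  exact absurd (f.injective h3) (ne_of_lt hlt)

/-- the nodes with length and values at most `η` -/
def Bd {K : Type} [LinearOrder K] (η : K) : Set (Node K) :=
  {u | u.len ≤ η ∧ ∀ ζ < u.len, u.val ζ ≤ η}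

theorem card_Iic_lt (hκ : κ.IsRegular) (ζ : κ.ord.ToType) : #(Iic ζ) < κ := by
  have : NoMaxOrder κ.ord.ToType := Cardinal.noMaxOrder hκ.aleph0_le
  obtain ⟨ξ, hξ⟩ := exists_gt ζ
  have h := hK_toType (κ := κ) ξ
  rw [Cardinal.mk_ord_toType] at h
  exact lt_of_le_of_lt (Cardinal.mk_le_mk_of_subset fun x hx => lt_of_le_of_lt hx hξ) h

theorem card_bd_lt (hκ : κ.IsRegular) (hlim : ∀ {Z : Type}, #Z < κ → #(Set Z) < κ)
    (η : κ.ord.ToType) : #(Bd η) < κ := by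
  classical
  have hI := card_Iic_lt hκ η
  have hmul : ∀ {A B : Type}, #A < κ → #B < κ → #(A × B) < κ := by
    intro A B hA hB
    rw [Cardinal.mk_prod]
    simp only [Cardinal.lift_id]
    exact Cardinal.mul_lt_of_lt hκ.aleph0_le hA hB
  have h1 : #(Bd η) ≤ #(Iic η × Set (Iic η × Iic η)) := by
    refine Cardinal.mk_le_of_injective (f := fun u : Bd η =>
      ((⟨u.1.len, u.2.1⟩ : Iic η),
        {w : Iic η × Iic η | w.1.1 < u.1.len ∧ u.1.val w.1 = w.2})) ?_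
    rintro ⟨u, hu⟩ ⟨v, hv⟩ huv
    have hlen : u.len = v.len := congrArg (fun z => (z.1.1 : κ.ord.ToType)) huv
    have hset : {w : Iic η × Iic η | w.1.1 < u.len ∧ u.val w.1 = w.2} =
        {w : Iic η × Iic η | w.1.1 < v.len ∧ v.val w.1 = w.2} := congrArg (fun z => z.2) huv
    refine Subtype.ext (Node.eq_of hlen fun ζ hζ => ?_)
    have h2 : ((⟨ζ, hζ.le.trans hu.1⟩, ⟨u.val ζ, hu.2 ζ hζ⟩) : Iic η × Iic η) ∈
        {w : Iic η × Iic η | w.1.1 < u.len ∧ u.val w.1 = w.2} := ⟨hζ, rfl⟩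
    rw [hset] at h2
    exact h2.2.symm
  exact lt_of_le_of_lt h1 (hmul hI (hlim (hmul hI hI)))

theorem exists_bd (hκ : κ.IsRegular) (u : Node κ.ord.ToType) : ∃ η, u ∈ Bd η := by
  have h := hK_toType (κ := κ) u.len
  rw [Cardinal.mk_ord_toType] at h
  obtain ⟨B, hB⟩ := exists_bound hκ h (fun ζ : Iio u.len => u.val ζ)
  exact ⟨max u.len B, le_max_left _ _, fun ζ hζ => (hB ⟨ζ, hζ⟩).trans (le_max_right _ _)⟩

theorem bd_mono {K : Type} [LinearOrder K] {η η' : K} (h : η ≤ η') {u : Node K} (hu : u ∈ Bd η) :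
    u ∈ Bd η' :=
  ⟨hu.1.trans h, fun ζ hζ => (hu.2 ζ hζ).trans h⟩

theorem card_node_le_of_lim (hκ : κ.IsRegular) (hlim : ∀ {Z : Type}, #Z < κ → #(Set Z) < κ) :
    #(Node κ.ord.ToType) ≤ κ := by
  classical
  choose η hη using fun u : Node κ.ord.ToType => exists_bd hκ u
  have h1 : #(Node κ.ord.ToType) ≤ #(Σ η : κ.ord.ToType, Bd η) := by
    refine Cardinal.mk_le_of_injective (f := fun u => (⟨η u, ⟨u, hη u⟩⟩ :
      Σ η : κ.ord.ToType, Bd η)) ?_
    intro u v huv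
    exact congrArg (fun z : (Σ η : κ.ord.ToType, Bd η) => (z.2 : Node κ.ord.ToType)) huv
  refine h1.trans ?_
  rw [Cardinal.mk_sigma]
  refine (Cardinal.sum_le_sum _ (fun _ => κ) fun η => (card_bd_lt hκ hlim η).le).trans ?_
  rw [Cardinal.sum_const]
  simp only [Cardinal.lift_id, Cardinal.mk_ord_toType]
  exact (Cardinal.mul_eq_self hκ.aleph0_le).le

section emb

variable {μ : Cardinal.{0}} {ξ : κ.ord.ToType}

/-- the nodes of the tree on `μ` inside the tree on `κ` -/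
theorem exists_emb (hκ : κ.IsRegular) (hμ : μ.IsRegular)
    (hξ : Ordinal.typein (α := κ.ord.ToType) (· < ·) ξ = μ.ord) :
    ∃ (e : μ.ord.ToType ≃o Iio ξ) (emb : Node μ.ord.ToType → Node κ.ord.ToType),
      (∀ u v, u ≤ v ↔ emb u ≤ emb v) ∧
      (∀ u η, u ∈ Bd η → emb u ∈ Bd (e η : κ.ord.ToType)) ∧
      ∀ η < ξ, ∀ p ∈ Bd η, ∃ u, emb u = p := by
  classical
  have htype : Ordinal.type (α := μ.ord.ToType) (· < ·) = Ordinal.type (α := Iio ξ) (· < ·) := by
    rw [Ordinal.type_toType]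
    exact hξ.symm
  obtain ⟨r⟩ := Ordinal.type_eq.1 htype
  let e : μ.ord.ToType ≃o Iio ξ := OrderIso.ofRelIsoLT r
  obtain ⟨b, hb⟩ := exists_least hκ
  obtain ⟨b', hb'⟩ := exists_least hμ
  let emb : Node μ.ord.ToType → Node κ.ord.ToType := fun u =>
    nodeOf b hb (fun η => if h : η < ξ then (e (u.val (e.symm ⟨η, h⟩)) : κ.ord.ToType) else b)
      (e u.len : κ.ord.ToType)
  have hlen : ∀ u, (emb u).len = (e u.len : κ.ord.ToType) := fun u => rfl
  have hval : ∀ u (ζ : μ.ord.ToType), ζ < u.len →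
      (emb u).val (e ζ : κ.ord.ToType) = (e (u.val ζ) : κ.ord.ToType) := by
    intro u ζ hζ
    have h1 : (e ζ : κ.ord.ToType) < (e u.len : κ.ord.ToType) := e.lt_iff_lt.2 hζ
    have h2 : (e ζ : κ.ord.ToType) < ξ := (e ζ).2
    change (nodeOf b hb _ (e u.len : κ.ord.ToType)).val _ = _
    rw [nodeOf_val _ _ _ _ h1, dif_pos h2]
    simp
  have hrep : ∀ (l : μ.ord.ToType) (ζ : κ.ord.ToType), ζ < (e l : κ.ord.ToType) →
      ∃ ζ' < l, (e ζ' : κ.ord.ToType) = ζ := by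
    intro l ζ hζ
    have h1 : ζ < ξ := hζ.trans (e l).2
    refine ⟨e.symm ⟨ζ, h1⟩, ?_, by simp⟩
    rw [← e.lt_iff_lt, e.apply_symm_apply]
    exact hζ
  refine ⟨e, emb, ?_, ?_, ?_⟩
  · intro u v
    constructor
    · intro h
      refine ⟨e.monotone h.1, fun ζ hζ => ?_⟩
      obtain ⟨ζ', h1, rfl⟩ := hrep u.len ζ hζ
      rw [hval u ζ' h1, hval v ζ' (h1.trans_le h.1), h.2 ζ' h1]
    · intro h
      have h0 : u.len ≤ v.len := e.le_iff_le.1 (show e u.len ≤ e v.len from h.1)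
      refine ⟨h0, fun ζ' h1 => ?_⟩
      have h2 := h.2 (e ζ' : κ.ord.ToType) (e.lt_iff_lt.2 h1)
      rw [hval u ζ' h1, hval v ζ' (h1.trans_le h0)] at h2
      exact e.injective (Subtype.ext h2)
  · intro u η hu
    refine ⟨e.monotone hu.1, fun ζ hζ => ?_⟩
    obtain ⟨ζ', h1, rfl⟩ := hrep u.len ζ hζ
    rw [hval u ζ' h1]
    exact e.monotone (hu.2 ζ' h1)
  · intro η hη p hp
    have hpl : p.len < ξ := lt_of_le_of_lt hp.1 hη
    let q : μ.ord.ToType → μ.ord.ToType := fun ζ' =>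
      if h : p.val (e ζ' : κ.ord.ToType) < ξ then e.symm ⟨p.val (e ζ' : κ.ord.ToType), h⟩ else b'
    let l' : μ.ord.ToType := e.symm ⟨p.len, hpl⟩
    have hl' : (e l' : κ.ord.ToType) = p.len := by
      change ((e (e.symm ⟨p.len, hpl⟩) : Iio ξ) : κ.ord.ToType) = p.len
      rw [e.apply_symm_apply]
    have hl : (emb (nodeOf b' hb' q l')).len = p.len := hl'
    refine ⟨nodeOf b' hb' q l', Node.eq_of hl fun ζ hζ => ?_⟩
    obtain ⟨ζ', h1, rfl⟩ := hrep l' ζ hζ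
    have h2 : (e ζ' : κ.ord.ToType) < p.len := lt_of_lt_of_eq hζ hl
    have h3 : p.val (e ζ' : κ.ord.ToType) < ξ := lt_of_le_of_lt (hp.2 _ h2) hη
    have h4 : (nodeOf b' hb' q l').val ζ' = e.symm ⟨p.val (e ζ' : κ.ord.ToType), h3⟩ := by
      rw [nodeOf_val b' hb' q l' h1]
      exact dif_pos h3
    rw [hval _ ζ' h1, h4, e.apply_symm_apply]

end emb

/-- **Boxes reflect upwards.** -/
theorem boxProp_of_stationary (hκ : κ.IsRegular) (hlim : ∀ {Z : Type}, #Z < κ → #(Set Z) < κ)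
    {d : ℕ} {S : Set κ.ord.ToType} (hS : IsStationary S)
    (hS' : ∀ ξ ∈ S, ∃ μ : Cardinal.{0}, μ.IsRegular ∧
      Ordinal.typein (α := κ.ord.ToType) (· < ·) ξ = μ.ord ∧ BoxProp μ d) : BoxProp κ d := by
  classical
  have : NoMaxOrder κ.ord.ToType := Cardinal.noMaxOrder hκ.aleph0_le
  have hcof : Order.cof κ.ord.ToType = κ := by rw [Ordinal.cof_toType, hκ.cof_ord]
  have hIio : ∀ ζ : κ.ord.ToType, #(Iio ζ) < κ := fun ζ => by
    have h := hK_toType (κ := κ) ζ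
    rwa [Cardinal.mk_ord_toType] at h
  have hmk : ∀ (ξ : κ.ord.ToType) (μ : Cardinal.{0}),
      Ordinal.typein (α := κ.ord.ToType) (· < ·) ξ = μ.ord → #(Iio ξ) = μ := by
    intro ξ μ h
    have h1 : #(Iio ξ) = (Ordinal.typein (α := κ.ord.ToType) (· < ·) ξ).card := rfl
    rw [h1, h, Cardinal.card_ord]
  have hκ0 : ℵ₀ < κ := by
    obtain ⟨ξ, hξ⟩ := hS.nonempty
    obtain ⟨μ, hμ, h1, -⟩ := hS' ξ hξ
    exact lt_of_le_of_lt (hμ.aleph0_le.trans (hmk ξ μ h1).ge) (hIio ξ)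
  intro ι hι c a
  by_contra hcon
  push Not at hcon
  -- killing families inside `β`
  let Kill : κ.ord.ToType → (Fin d → Node κ.ord.ToType) → ι → Prop := fun β s i =>
    ∃ (J : Fin d → Type) (p : (l : Fin d) → J l → Node κ.ord.ToType),
      (∀ l, #(J l) ≤ #(Iio β)) ∧ (∀ l j, s l ≤ p l j ∧ p l j ∈ Bd β) ∧
      ∀ x : (l : Fin d) → J l → Node κ.ord.ToType, (∀ l j, p l j ≤ x l j) →
        ∃ f : (l : Fin d) → J l, c (fun l => x l (f l)) ≠ i
  have hfin : #(Fin d) < κ := lt_of_lt_of_le (Cardinal.lt_aleph0_of_finite _) hκ.aleph0_le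
  have hkill : ∀ z : (Fin d → Node κ.ord.ToType) × ι, ∃ β, (∀ l, a l ≤ z.1 l) →
      Kill β z.1 z.2 := by
    rintro ⟨s, i⟩
    by_cases hs : ∀ l, a l ≤ s l
    · obtain ⟨J, hJ, p, hp, hk⟩ := hcon s hs i
      choose β₁ hβ₁ using fun l => exists_Iio_eq (hJ l)
      choose β₂ hβ₂ using fun u : Node κ.ord.ToType => exists_bd hκ u
      obtain ⟨B₁, hB₁⟩ := exists_bound hκ hfin β₁
      obtain ⟨B₂, hB₂⟩ := exists_bound hκ (card_sigma_lt hκ hJ)
        (fun z : Σ l, J l => β₂ (p z.1 z.2))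
      refine ⟨max B₁ B₂, fun _ => ⟨J, p, fun l => ?_, fun l j => ⟨hp l j, ?_⟩, hk⟩⟩
      · rw [← hβ₁ l]
        exact Cardinal.mk_le_mk_of_subset (Iio_subset_Iio ((hB₁ l).trans (le_max_left _ _)))
      · exact bd_mono ((hB₂ ⟨l, j⟩).trans (le_max_right _ _)) (hβ₂ _)
    · exact ⟨(exists_least hκ).choose, fun h => absurd h hs⟩
  choose β hβ using hkill
  have hg : ∀ η : κ.ord.ToType, ∃ γ, ∀ z : (Fin d → Bd η) × ι,
      β (fun l => (z.1 l : Node κ.ord.ToType), z.2) ≤ γ := by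
    intro η
    refine exists_bound hκ ?_ _
    rw [Cardinal.mk_prod]
    simp only [Cardinal.lift_id]
    exact Cardinal.mul_lt_of_lt hκ.aleph0_le
      (card_pi_lt hκ fun _ => card_bd_lt hκ hlim η) hι
  choose g hg using hg
  choose βa hβa using fun l => exists_bd hκ (a l)
  obtain ⟨Ba, hBa⟩ := exists_bound hκ hfin βa
  obtain ⟨Bι, hBι⟩ := exists_Iio_eq hι
  have hclub := isClub_diag (by rw [hcof]; exact hκ0)
    (fun ζ => by rw [hcof]; exact hIio ζ) (fun x => Ioi (g x)) (fun x => isClub_Ioi (g x))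
  have hst := stationary_inter (by rw [hcof]; exact hκ0) (stationary_inter
    (by rw [hcof]; exact hκ0) hS hclub) (isClub_Ioi (max Ba Bι))
  obtain ⟨ξ, ⟨hξS, hξg⟩, hξ⟩ := hst.nonempty
  have hξg' : ∀ η < ξ, g η < ξ := hξg
  have hξ' : max Ba Bι < ξ := hξ
  obtain ⟨μ, hμ, hξμ, hbox⟩ := hS' ξ hξS
  have hlt : ∀ η < ξ, #(Iio η) < μ := by
    intro η hη
    have h1 : Ordinal.typein (α := κ.ord.ToType) (· < ·) η < μ.ord := by
      rw [← hξμ]; exact (Ordinal.typein_lt_typein (α := κ.ord.ToType) (· < ·)).2 hη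
    exact Cardinal.lt_ord.1 h1
  obtain ⟨e, emb, hemb, hembBd, hsurj⟩ := exists_emb hκ hμ hξμ
  have hιμ : #ι < μ := by
    rw [← hBι]
    exact hlt _ ((le_max_right _ _).trans_lt hξ')
  choose a' ha' using fun l => hsurj Ba ((le_max_left _ _).trans_lt hξ') (a l)
    (bd_mono (hBa l) (hβa l))
  obtain ⟨s', hs', i, hi⟩ := hbox ι hιμ (fun v => c (fun l => emb (v l))) a'
  have hfin' : #(Fin d) < μ := lt_of_lt_of_le (Cardinal.lt_aleph0_of_finite _) hμ.aleph0_le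
  choose ηs hηs using fun l => exists_bd hμ (s' l)
  obtain ⟨η', hη'⟩ := exists_bound hμ hfin' ηs
  have hsBd : ∀ l, emb (s' l) ∈ Bd (e η' : κ.ord.ToType) := fun l =>
    hembBd _ _ (bd_mono (hη' l) (hηs l))
  have hηξ : (e η' : κ.ord.ToType) < ξ := (e η').2
  obtain ⟨J, p, hJ, hp, hk⟩ := hβ (fun l => emb (s' l), i) (fun l => by
    rw [← ha' l]; exact (hemb _ _).1 (hs' l))
  have hβg : β (fun l => emb (s' l), i) ≤ g (e η' : κ.ord.ToType) :=
    hg (e η' : κ.ord.ToType) (fun l => ⟨emb (s' l), hsBd l⟩, i)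
  have hβξ : β (fun l => emb (s' l), i) < ξ := lt_of_le_of_lt hβg (hξg' _ hηξ)
  choose p' hp' using fun (l : Fin d) (j : J l) => hsurj _ hβξ (p l j) (hp l j).2
  obtain ⟨x, hx, hxi⟩ := hi J (fun l => lt_of_le_of_lt (hJ l) (hlt _ hβξ)) p' (fun l j => by
    rw [hemb, hp' l j]; exact (hp l j).1)
  obtain ⟨f, hf⟩ := hk (fun l j => emb (x l j)) (fun l j => by
    rw [← hp' l j]; exact (hemb _ _).1 (hx l j))
  exact hf (hxi f)

/-- **Boxes on levels** at a weakly compact cardinal with the box property. -/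
theorem exists_boxes_level_wc (hκ : κ.IsRegular) (hW : WeaklyCompact κ)
    {d : ℕ} (hbox : BoxProp κ d) {T : Fin d → Set (Node κ.ord.ToType)}
    (hT : ∀ l, IsRegularTree (T l)) {ι : Type} (hι : #ι < κ) (c : ((l : Fin d) → T l) → ι)
    (a : (l : Fin d) → T l) (B : Set κ.ord.ToType) (hB : ∀ a, ∃ b ∈ B, a < b) :
    ∃ F : Filter κ.ord.ToType, F.NeBot ∧ (∀ a, Ioi a ∈ F) ∧ B ∈ F ∧
      ∃ s : (l : Fin d) → T l, (∀ l, a l ≤ s l) ∧ ∃ i : ι,
        ∀ J : Fin d → Type, (∀ l, #(J l) < κ) →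
          ∀ p : (l : Fin d) → J l → T l, (∀ l j, s l ≤ p l j) →
            {ζ | ∃ x : (l : Fin d) → J l → T l,
              (∀ l j, p l j ≤ x l j ∧ (x l j : Node κ.ord.ToType).len = ζ) ∧
              ∀ f : (l : Fin d) → J l, c (fun l => x l (f l)) = i} ∈ F := by
  classical
  have hb : ∀ (l : Fin d) (s : T l) (ζ : κ.ord.ToType), ∃ r : T l,
      (s : Node κ.ord.ToType).len ≤ ζ → s ≤ r ∧ (r : Node κ.ord.ToType).len = ζ := by
    intro l s ζ
    by_cases h : (s : Node κ.ord.ToType).len ≤ ζ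
    · obtain ⟨r, hr⟩ := exists_level (hT l) s ζ h
      exact ⟨r, fun _ => hr⟩
    · exact ⟨s, fun h' => absurd h' h⟩
  choose b hb using hb
  have htup : #((l : Fin d) → T l) ≤ κ := by
    have h1 : #((l : Fin d) → T l) ≤ #(Fin d → Node κ.ord.ToType) := by
      refine Cardinal.mk_le_of_injective
        (f := fun (f : (l : Fin d) → T l) => fun l => (f l : Node κ.ord.ToType)) ?_
      intro f g hfg
      funext l
      exact Subtype.ext (congrFun hfg l)
    refine h1.trans ?_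
    have h3 : #(Fin d → Node κ.ord.ToType) = #(Node κ.ord.ToType) ^ d := by
      simp
    rw [h3]
    exact (Cardinal.power_le_power_right (card_node_le_of_lim hκ (hW.card_set_lt hκ))).trans
      (Cardinal.power_nat_le hκ.aleph0_le)
  have hmul : #(((l : Fin d) → T l) × ι) ≤ κ := by
    rw [Cardinal.mk_prod]
    simp only [Cardinal.lift_id]
    exact (mul_le_mul' htup hι.le).trans (Cardinal.mul_eq_self hκ.aleph0_le).le
  obtain ⟨F, hF1, hF2, hF3, hF4, hF5⟩ := hW.exists_of_le (I := ((l : Fin d) → T l) × ι)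
    hmul (fun z => {ζ | c (fun l => b l (z.1 l) ζ) = z.2}) B hB
  have hlim : ∀ s : (l : Fin d) → T l, ∃ i : ι, {ζ | c (fun l => b l (s l) ζ) = i} ∈ F := by
    intro s
    by_contra hcon
    push Not at hcon
    have h1 : (⋂ i : ι, {ζ | c (fun l => b l (s l) ζ) = i}ᶜ) ∈ F :=
      (Filter.cardinal_iInter_mem hι).2 (fun i => (hF5 (s, i)).resolve_left (hcon i))
    obtain ⟨ζ, hζ⟩ := Filter.nonempty_of_mem h1
    exact mem_iInter.1 hζ (c (fun l => b l (s l) ζ)) rfl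
  choose c' hc' using hlim
  choose π hπl hπm hπp using fun l => exists_proj hκ (hT l)
  obtain ⟨o, ho⟩ := exists_least hκ
  have hroot : ∀ (l : Fin d) (a : T l), π l (nodeOf o ho (fun _ => o) o) ≤ a := by
    intro l a
    have hl : (π l (nodeOf o ho (fun _ => o) o) : Node κ.ord.ToType).len = o := hπl l _
    refine ⟨?_, fun η hη => ?_⟩
    · rw [hl]; exact ho _
    · rw [hl] at hη
      exact absurd hη (not_lt.2 (ho η))
  choose p₀ hp₀ using fun l => hπp l _ (a l) (hroot l (a l))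
  obtain ⟨s, hs, i, hi⟩ := hbox ι hι (fun p => c' (fun l => π l (p l))) p₀
  refine ⟨F, hF1, hF3, hF4, fun l => π l (s l), fun l => ?_, i, fun J hJ p hp => ?_⟩
  · have h1 := hπm l _ _ (hs l)
    rwa [(hp₀ l).2] at h1
  choose p' hp's hp'p using fun (l : Fin d) (j : J l) => hπp l (s l) (p l j) (hp l j)
  obtain ⟨x, hx, hxi⟩ := hi J hJ p' hp's
  obtain ⟨L, hL⟩ := exists_bound hκ (card_sigma_lt hκ hJ)
    (fun z : Σ l, J l => (π z.1 (x z.1 z.2) : Node κ.ord.ToType).len)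
  have h1 : (⋂ f : (l : Fin d) → J l, {ζ | c (fun l => b l (π l (x l (f l))) ζ) = i}) ∈ F := by
    refine (Filter.cardinal_iInter_mem (card_pi_lt hκ hJ)).2 fun f => ?_
    have h2 := hc' (fun l => π l (x l (f l)))
    have h3 : c' (fun l => π l (x l (f l))) = i := hxi f
    rwa [h3] at h2
  refine Filter.mem_of_superset (Filter.inter_mem h1 (hF3 L)) ?_
  rintro ζ ⟨hζ, hζL⟩
  refine ⟨fun l j => b l (π l (x l j)) ζ, fun l j => ?_, fun f => mem_iInter.1 hζ f⟩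
  have h3 := hb l (π l (x l j)) ζ ((hL ⟨l, j⟩).trans (le_of_lt hζL))
  have h4 : p l j ≤ π l (x l j) := by
    have := hπm l _ _ (hx l j)
    rwa [hp'p l j] at this
  exact ⟨h4.trans h3.1, h3.2⟩

end Pool.Agent.Helper39.HL
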