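import Pool.Agent.Helper58.HL.Lim

/-!
# Strong subtrees from a choice of extensions on every level

For every node `s` of `T` above `r` an extension `X s` at the level `z (len s)` is given. The
subtree consists of the nodes comparable with `r` and, for the levels `η` of a greedy set `H`,
with `X (s ↾ η)`.
-/

set_option autoImplicit false

open Cardinal Set Helper2.HB

namespace Pool.Agent.Helper39.HL

section greedy

variable {K : Type} [LinearOrder K]

/-- the greedy set: from `η₀` on, take every point that is not forbidden by an earlier one -/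
theorem exists_greedy [WellFoundedLT K] (nx : K → K) (η₀ : K) :
    ∃ H : Set K, ∀ η, η ∈ H ↔ η₀ ≤ η ∧ ∀ η' ∈ H, η' < η → nx η' ≤ η := by
  let F : (η : K) → ((η' : K) → η' < η → Prop) → Prop := fun η h =>
    η₀ ≤ η ∧ ∀ η' (hlt : η' < η), h η' hlt → nx η' ≤ η
  let G : K → Prop := (wellFounded_lt (α := K)).fix F
  have hG : ∀ η, G η = F η (fun η' _ => G η') := fun η => WellFounded.fix_eq _ _ _
  refine ⟨{η | G η}, fun η => ?_⟩
  change G η ↔ _
  rw [hG η]
  constructor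
  · rintro ⟨h1, h2⟩
    exact ⟨h1, fun η' h3 h4 => h2 η' h4 h3⟩
  · rintro ⟨h1, h2⟩
    exact ⟨h1, fun η' h3 h4 => h2 η' h4 h3⟩

theorem eq_of_len {a b : Node K} (h : a ≤ b) (h' : b.len ≤ a.len) : a = b :=
  le_antisymm h (Node.le_of_len h h')

theorem restr_self (u : Node K) : u.restr u.len = u :=
  eq_of_len (Node.restr_le le_rfl) le_rfl

theorem restr_eq {s u : Node K} (h : s ≤ u) {l : K} (hl : l ≤ s.len) : u.restr l = s.restr l :=
  eq_of_len (Node.le_of_le_of_le (Node.restr_le (hl.trans h.1))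
    ((Node.restr_le hl).trans h) le_rfl) le_rfl

end greedy

variable {K : Type} [LinearOrder K]

/-- The data for one tree. -/
structure Setup (T : Set (Node K)) (r : Node K) (z nx : K → K) (X : Node K → Node K)
    (H : Set K) : Prop where
  down : ∀ t ∈ T, ∀ s, s ≤ t → s ∈ T
  rT : r ∈ T
  ub : ∀ C ⊆ T, IsChain (· ≤ ·) C → ∀ l, (∀ c ∈ C, c.len ≤ l) →
    ∃ u ∈ T, u.len = l ∧ ∀ c ∈ C, c ≤ u
  hz : ∀ η, η < z η
  cov : ∀ η, z η ⋖ nx η
  X_mem : ∀ s ∈ T, r ≤ s → X s ∈ T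
  X_len : ∀ s ∈ T, r ≤ s → (X s).len = z s.len
  le_X : ∀ s ∈ T, r ≤ s → s ≤ X s
  mem_H : ∀ η, η ∈ H ↔ r.len ≤ η ∧ ∀ η' ∈ H, η' < η → nx η' ≤ η

/-- The subtree. -/
def Sub (T : Set (Node K)) (r : Node K) (X : Node K → Node K) (H : Set K) : Set (Node K) :=
  {s | s ∈ T ∧ (s ≤ r ∨ r ≤ s) ∧
    ∀ η ∈ H, η ≤ s.len → (s ≤ X (s.restr η) ∨ X (s.restr η) ≤ s)}

namespace Setup

variable {T : Set (Node K)} {r : Node K} {z nx : K → K} {X : Node K → Node K} {H : Set K}

theorem comp_r (s : Node K) (hs : s ∈ Sub T r X H) (h : r.len ≤ s.len) : r ≤ s := by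
  rcases hs.2.1 with h1 | h1
  · exact Node.le_of_len h1 h
  · exact h1

theorem H_ge (hS : Setup T r z nx X H) {η : K} (hη : η ∈ H) : r.len ≤ η :=
  ((hS.mem_H η).1 hη).1

theorem H_next (hS : Setup T r z nx X H) {η η' : K} (hη : η ∈ H) (hη' : η' ∈ H) (h : η < η') :
    nx η ≤ η' :=
  ((hS.mem_H η').1 hη').2 η hη h

theorem exists_H (hS : Setup T r z nx X H) {ζ : K} (h : r.len ≤ ζ) :
    ∃ η ∈ H, η ≤ ζ ∧ ζ < nx η := by
  by_contra hcon
  push Not at hcon
  have h1 : ζ ∈ H := (hS.mem_H ζ).2 ⟨h, fun η' h2 h3 => hcon η' h2 h3.le⟩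
  have h2 := hcon ζ h1 le_rfl
  exact absurd ((hS.hz ζ).trans (hS.cov ζ).lt) (not_lt.2 h2)

theorem sub_down (hS : Setup T r z nx X H) (t : Node K) (ht : t ∈ Sub T r X H) (s : Node K)
    (hst : s ≤ t) : s ∈ Sub T r X H := by
  refine ⟨hS.down t ht.1 s hst, ?_, fun η hη hle => ?_⟩
  · rcases ht.2.1 with h | h
    · exact Or.inl (hst.trans h)
    · rcases le_total s.len r.len with h' | h'
      · exact Or.inl (Node.le_of_le_of_le hst h h')
      · exact Or.inr (Node.le_of_le_of_le h hst h')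
  · rw [← restr_eq hst hle]
    rcases ht.2.2 η hη (hle.trans hst.1) with h | h
    · exact Or.inl (hst.trans h)
    · rcases le_total s.len (X (t.restr η)).len with h' | h'
      · exact Or.inl (Node.le_of_le_of_le hst h h')
      · exact Or.inr (Node.le_of_le_of_le h hst h')

theorem r_mem (hS : Setup T r z nx X H) : r ∈ Sub T r X H := by
  refine ⟨hS.rT, Or.inl le_rfl, fun η hη hle => ?_⟩
  have h1 : η = r.len := le_antisymm hle (hS.H_ge hη)
  subst h1
  rw [restr_self]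
  exact Or.inl (hS.le_X r hS.rT le_rfl)

/-- nodes between `s'` and the next level, comparable with `X s'` -/
theorem mem_of_comp (hS : Setup T r z nx X H) {s' u : Node K} (hs' : s' ∈ Sub T r X H)
    (hη : s'.len ∈ H) (hu : u ∈ T) (hle : s' ≤ u) (hlen : u.len ≤ nx s'.len)
    (hc : u ≤ X s' ∨ X s' ≤ u) : u ∈ Sub T r X H := by
  have hr : r ≤ s' := comp_r s' hs' (hS.H_ge hη)
  refine ⟨hu, Or.inr (hr.trans hle), fun η hη' hηu => ?_⟩
  rcases lt_trichotomy η s'.len with h | h | h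
  · rw [restr_eq hle h.le]
    have h1 : s'.restr η ∈ T := hS.down s' hs'.1 _ (Node.restr_le h.le)
    have h2 : r ≤ s'.restr η := Node.le_restr hr (hS.H_ge hη')
    have h3 : (X (s'.restr η)).len = z η := hS.X_len _ h1 h2
    have h4 : z η < s'.len := (hS.cov η).lt.trans_le (hS.H_next hη' hη h)
    right
    rcases hs'.2.2 η hη' h.le with h5 | h5
    · exact absurd h5.1 (not_le.2 (h3 ▸ h4))
    · exact h5.trans hle
  · subst h
    rw [restr_eq hle le_rfl, restr_self]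
    exact hc
  · have h1 := hS.H_next hη hη' h
    have h2 : η = u.len := le_antisymm hηu (hlen.trans h1)
    subst h2
    rw [restr_self]
    exact Or.inl (hS.le_X u hu (hr.trans hle))

/-- every node lies between two consecutive levels of `H` (or below `r`) -/
theorem locate (hS : Setup T r z nx X H) {s : Node K} (hs : s ∈ Sub T r X H)
    (h : r.len ≤ s.len) : ∃ η ∈ H, η ≤ s.len ∧ s.len ≤ z η ∧ s.restr η ∈ Sub T r X H ∧
      s.restr η ≤ s ∧ (X (s.restr η)).len = z η ∧ s ≤ X (s.restr η) := by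
  obtain ⟨η, hη, h1, h2⟩ := hS.exists_H h
  have h3 : s.len ≤ z η := (hS.cov η).le_of_lt h2
  have h4 : s.restr η ≤ s := Node.restr_le h1
  have h5 : s.restr η ∈ Sub T r X H := hS.sub_down s hs _ h4
  have h6 : r ≤ s.restr η := comp_r _ h5 (hS.H_ge hη)
  have h7 : (X (s.restr η)).len = z η := hS.X_len _ h5.1 h6
  refine ⟨η, hη, h1, h3, h5, h4, h7, ?_⟩
  rcases hs.2.2 η hη h1 with h8 | h8
  · exact h8
  · exact Node.le_of_len h8 (h7 ▸ h3)

theorem exists_ext (hS : Setup T r z nx X H) {s : Node K} (hs : s ∈ T) {l : K}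
    (hl : s.len ≤ l) : ∃ u ∈ T, s ≤ u ∧ u.len = l := by
  obtain ⟨u, hu, h1, h2⟩ := hS.ub {s} (by simpa using hs) (by simp) l (by simpa using hl)
  exact ⟨u, hu, h2 s rfl, h1⟩

theorem exists_succ (hS : Setup T r z nx X H) [WellFoundedLT K] [NoMaxOrder K] {s : Node K}
    (hs : s ∈ Sub T r X H) : ∃ u ∈ Sub T r X H, s ≤ u ∧ s.len ⋖ u.len := by
  obtain ⟨b, hb⟩ := exists_covBy_of_wellFoundedLT (not_isMax s.len)
  rcases lt_or_ge s.len r.len with h | h
  · have h1 : s ≤ r := by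
      rcases hs.2.1 with h1 | h1
      · exact h1
      · exact Node.le_of_len h1 h.le
    have h2 : b ≤ r.len := hb.ge_of_gt h
    exact ⟨r.restr b, hS.sub_down r hS.r_mem _ (Node.restr_le h2), Node.le_restr h1 hb.le, hb⟩
  · obtain ⟨η, hη, h1, h2, h3, h4, h5, h6⟩ := hS.locate hs h
    have hr : r ≤ s.restr η := comp_r _ h3 (hS.H_ge hη)
    rcases lt_or_eq_of_le h2 with h7 | h7
    · have h8 : b ≤ z η := hb.ge_of_gt h7
      have h9 : (X (s.restr η)).restr b ≤ X (s.restr η) := Node.restr_le (h5 ▸ h8)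
      refine ⟨(X (s.restr η)).restr b, hS.mem_of_comp h3 hη ?_ ?_ ?_ (Or.inl h9),
        Node.le_restr h6 hb.le, hb⟩
      · exact hS.down _ (hS.X_mem _ h3.1 hr) _ h9
      · exact h4.trans (Node.le_restr h6 hb.le)
      · exact h8.trans (hS.cov η).le
    · obtain ⟨u, hu, hsu, hul⟩ := hS.exists_ext hs.1 (l := nx η) (h2.trans (hS.cov η).le)
      have h8 : X (s.restr η) ≤ s := Node.le_of_len h6 (by rw [h5, h7])
      refine ⟨u, hS.mem_of_comp h3 hη hu (h4.trans hsu) hul.le (Or.inr (h8.trans hsu)), hsu, ?_⟩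
      rw [hul, h7]
      exact hS.cov η

/-- outside the levels `z η` the immediate successor is unique -/
theorem unique_succ (hS : Setup T r z nx X H) {s a b : Node K} (hs : s ∈ Sub T r X H)
    (hA : s.len ∉ z '' H) (ha : a ∈ Sub T r X H) (hb : b ∈ Sub T r X H) (hsa : s ≤ a)
    (hsb : s ≤ b) (hca : s.len ⋖ a.len) (hcb : s.len ⋖ b.len) : a = b := by
  have hab : a.len = b.len := hca.unique_right hcb
  have key : ∀ v : Node K, a ≤ v → b ≤ v → a = b := by
    intro v h1 h2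
    exact eq_of_len (Node.le_of_le_of_le h1 h2 hab.le) hab.ge
  rcases lt_or_ge s.len r.len with h | h
  · have h1 : ∀ a ∈ Sub T r X H, s.len ⋖ a.len → a ≤ r := by
      intro a ha hca
      rcases ha.2.1 with h1 | h1
      · exact h1
      · exact Node.le_of_len h1 (hca.ge_of_gt h)
    exact key r (h1 a ha hca) (h1 b hb hcb)
  · obtain ⟨η, hη, h1, h2, h3, h4, h5, h6⟩ := hS.locate hs h
    have h7 : s.len < z η := lt_of_le_of_ne h2 (fun h => hA ⟨η, hη, h.symm⟩)
    have h8 : ∀ a ∈ Sub T r X H, s ≤ a → s.len ⋖ a.len → a ≤ X (s.restr η) := by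
      intro a ha hsa hca
      have h9 := ha.2.2 η hη (h1.trans hsa.1)
      rw [restr_eq hsa h1] at h9
      rcases h9 with h9 | h9
      · exact h9
      · exact Node.le_of_len h9 (h5 ▸ hca.ge_of_gt h7)
    exact key _ (h8 a ha hsa hca) (h8 b hb hsb hcb)

/-- on the levels `z η` the nodes are the chosen extensions -/
theorem eq_X (hS : Setup T r z nx X H) {s : Node K} (hs : s ∈ Sub T r X H) {η : K} (hη : η ∈ H)
    (hlen : s.len = z η) : s.restr η ∈ Sub T r X H ∧ r ≤ s.restr η ∧ s = X (s.restr η) := by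
  have h1 : η ≤ s.len := hlen ▸ (hS.hz η).le
  have h4 : s.restr η ≤ s := Node.restr_le h1
  have h5 : s.restr η ∈ Sub T r X H := hS.sub_down s hs _ h4
  have h6 : r ≤ s.restr η := comp_r _ h5 (hS.H_ge hη)
  have h7 : (X (s.restr η)).len = z η := hS.X_len _ h5.1 h6
  refine ⟨h5, h6, ?_⟩
  rcases hs.2.2 η hη h1 with h8 | h8
  · exact eq_of_len h8 (by rw [h7, hlen])
  · exact (eq_of_len h8 (by rw [h7, hlen])).symm

/-- on the levels `z η` all immediate successors are kept -/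
theorem all_succ (hS : Setup T r z nx X H) {s u : Node K} (hs : s ∈ Sub T r X H)
    (hA : s.len ∈ z '' H) (hu : u ∈ T) (hsu : s ≤ u) (hc : s.len ⋖ u.len) :
    u ∈ Sub T r X H := by
  obtain ⟨η, hη, hlen⟩ := hA
  obtain ⟨h5, h6, h7⟩ := hS.eq_X hs hη hlen.symm
  have h1 : η ≤ s.len := hlen ▸ (hS.hz η).le
  have h8 : u.len = nx η := by
    rw [← hlen] at hc
    exact hc.unique_right (hS.cov η)
  exact hS.mem_of_comp h5 hη hu ((Node.restr_le h1).trans hsu) h8.le (Or.inr (h7 ▸ hsu))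

/-- closure under limits -/
theorem mem_of_lim (hS : Setup T r z nx X H) {u : Node K} (hu : u ∈ T)
    (h : ∀ l < u.len, ∃ w ∈ Sub T r X H, w ≤ u ∧ l < w.len) : u ∈ Sub T r X H := by
  have hr : u ≤ r ∨ r ≤ u := by
    rcases le_or_gt u.len r.len with h1 | h1
    · left
      refine ⟨h1, fun η hη => ?_⟩
      obtain ⟨w, hw, hwu, hl⟩ := h η hη
      have h2 : w ≤ r := by
        rcases hw.2.1 with h2 | h2
        · exact h2
        · exact Node.le_of_len h2 (hwu.1.trans h1)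
      rw [← hwu.2 η hl, h2.2 η hl]
    · right
      obtain ⟨w, hw, hwu, hl⟩ := h _ h1
      exact (comp_r w hw hl.le).trans hwu
  have hr' : ∀ η ∈ H, η ≤ u.len → r ≤ u := by
    intro η hη hle
    rcases hr with h1 | h1
    · exact Node.le_of_len h1 ((hS.H_ge hη).trans hle)
    · exact h1
  refine ⟨hu, hr, fun η hη hle => ?_⟩
  have h1 : r ≤ u := hr' η hη hle
  rcases lt_or_eq_of_le hle with h2 | h2
  · have h3 : u.restr η ∈ T := hS.down u hu _ (Node.restr_le hle)
    have h4 : r ≤ u.restr η := Node.le_restr h1 (hS.H_ge hη)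
    have h5 : (X (u.restr η)).len = z η := hS.X_len _ h3 h4
    rcases le_or_gt u.len (z η) with h6 | h6
    · left
      refine ⟨h5 ▸ h6, fun ξ hξ => ?_⟩
      obtain ⟨w, hw, hwu, hl⟩ := h (max ξ η) (max_lt hξ h2)
      have hξw : ξ < w.len := (le_max_left _ _).trans_lt hl
      have hηw : η < w.len := (le_max_right _ _).trans_lt hl
      have h7 := hw.2.2 η hη hηw.le
      rw [← restr_eq hwu hηw.le] at h7
      have h8 : w ≤ X (u.restr η) := by
        rcases h7 with h7 | h7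
        · exact h7
        · exact Node.le_of_len h7 (h5 ▸ hwu.1.trans h6)
      rw [← hwu.2 ξ hξw, h8.2 ξ hξw]
    · right
      obtain ⟨w, hw, hwu, hl⟩ := h _ h6
      have hηw : η < w.len := (hS.hz η).trans hl
      have h7 := hw.2.2 η hη hηw.le
      rw [← restr_eq hwu hηw.le] at h7
      rcases h7 with h7 | h7
      · exact absurd h7.1 (not_le.2 (h5 ▸ hl))
      · exact h7.trans hwu
  · subst h2
    rw [restr_self]
    exact Or.inl (hS.le_X u hu h1)

theorem sub_ub (hS : Setup T r z nx X H) [WellFoundedLT K] {C : Set (Node K)}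
    (hC : C ⊆ Sub T r X H) (hch : IsChain (· ≤ ·) C) {l : K} (hl : ∀ c ∈ C, c.len ≤ l) :
    ∃ u ∈ Sub T r X H, ∀ c ∈ C, c ≤ u := by
  obtain ⟨m, hm, hmin⟩ := (wellFounded_lt (α := K)).has_min {l | ∀ c ∈ C, c.len ≤ l} ⟨l, hl⟩
  obtain ⟨u, hu, h1, h2⟩ := hS.ub C (hC.trans fun _ h => h.1) hch m hm
  refine ⟨u, hS.mem_of_lim hu fun l' hl' => ?_, h2⟩
  by_contra hcon
  push Not at hcon
  exact hmin l' (fun c hc => hcon c (hC hc) (h2 c hc)) (h1 ▸ hl')

/-- unbounded maximal chains -/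
theorem unbounded (hS : Setup T r z nx X H) [WellFoundedLT K] [NoMaxOrder K]
    {C : Set (Sub T r X H)} (hC : IsMaxChain (· ≤ ·) C) (l : K) :
    ∃ c ∈ C, l < (c : Node K).len := by
  by_contra hcon
  push Not at hcon
  obtain ⟨u, hu, h1⟩ := hS.sub_ub (C := Subtype.val '' C) (by rintro _ ⟨x, -, rfl⟩; exact x.2)
    (by
      rintro _ ⟨x, hx, rfl⟩ _ ⟨y, hy, rfl⟩ hxy
      exact hC.isChain hx hy (fun h => hxy (by rw [h]))) (l := l)
    (by rintro _ ⟨x, hx, rfl⟩; exact hcon x hx)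
  obtain ⟨v, hv, h2, h3⟩ := hS.exists_succ hu
  have h4 : IsChain (· ≤ ·) (insert (⟨v, hv⟩ : Sub T r X H) C) :=
    hC.isChain.insert fun b hb _ => Or.inr ((h1 b ⟨b, hb, rfl⟩).trans h2)
  have h5 := hC.2 h4 (subset_insert _ _)
  have h6 : (⟨v, hv⟩ : Sub T r X H) ∈ C := by rw [h5]; exact mem_insert _ _
  have h7 : v ≤ u := h1 v ⟨_, h6, rfl⟩
  exact absurd h3.lt (not_lt.2 h7.1)

theorem sub_ext (hS : Setup T r z nx X H) [WellFoundedLT K] [NoMaxOrder K] {t : Node K}
    (ht : t ∈ Sub T r X H) {ζ : K} (hζ : t.len ≤ ζ) : ∃ u ∈ Sub T r X H, t ≤ u ∧ u.len = ζ := by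
  obtain ⟨C, hC, h1⟩ := (IsChain.singleton (r := (· ≤ ·)) (a := (⟨t, ht⟩ : Sub T r X H))).exists_maxChain
  obtain ⟨c, hc, h2⟩ := hS.unbounded hC ζ
  have h3 : (⟨t, ht⟩ : Sub T r X H) ∈ C := h1 rfl
  have h4 : t ≤ (c : Node K) := by
    rcases hC.isChain.total h3 hc with h | h
    · exact h
    · exact Node.le_of_len h (hζ.trans h2.le)
  exact ⟨(c : Node K).restr ζ, hS.sub_down _ c.2 _ (Node.restr_le h2.le), Node.le_restr h4 hζ, rfl⟩

theorem exists_len (hS : Setup T r z nx X H) [WellFoundedLT K] [NoMaxOrder K] (ζ : K) :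
    ∃ u ∈ Sub T r X H, u.len = ζ := by
  rcases le_total r.len ζ with h | h
  · obtain ⟨u, hu, -, h1⟩ := hS.sub_ext hS.r_mem h
    exact ⟨u, hu, h1⟩
  · exact ⟨r.restr ζ, hS.sub_down r hS.r_mem _ (Node.restr_le h), rfl⟩

theorem cofinal (hS : Setup T r z nx X H) [NoMaxOrder K] (a : K) : ∃ ζ ∈ z '' H, a < ζ := by
  obtain ⟨b, hb⟩ := exists_gt (max a r.len)
  obtain ⟨η, hη, h1, h2⟩ := hS.exists_H (((le_max_right _ _).trans_lt hb).le)
  exact ⟨z η, ⟨η, hη, rfl⟩, ((le_max_left _ _).trans_lt hb).trans_le ((hS.cov η).le_of_lt h2)⟩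

end Setup

end Pool.Agent.Helper39.HL
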